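import Pool.Agent.Lib.MP_7470a2_gt.Sol

/-!
# Comparing two and three solutions
-/

namespace Pool.Agent.Lib.MP_7470a2_gt

/-- The relation between the vectors of two different solutions `(P, R)` and `(Q, S)`, with
`X = det(P,Q)`, `Y = det(Q,R)` and `δ = det(P,R) = det(Q,S)`. -/
structure Quad (P Q R S : V) (X Y d : ℤ) : Prop where
  hX : 0 < X
  hY : 0 < Y
  hd : 0 < d
  PR : det P R = d
  QS : det Q S = d
  PQ : det P Q = X
  QR : det Q R = Y
  RS : det R S = X
  PS : det P S = Y + d * X
  eqn : X ^ 2 + d * X * Y + Y ^ 2 = d ^ 2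
  vQ : d • Q = X • R + Y • P

lemma sgsg_ext {u v u' v' p q : V} (hpq : det p q = 1)
    (hp : sg u (sg v p) = sg u' (sg v' p)) (hq : sg u (sg v q) = sg u' (sg v' q)) (z : V) :
    sg u (sg v z) = sg u' (sg v' z) := by
  have hz : z = (det z q) • p + (det p z) • q := by
    ext
    · simp only [det, Prod.fst_add, Prod.smul_fst, smul_eq_mul] at hpq ⊢
      linear_combination (-z.1) * hpq
    · simp only [det, Prod.snd_add, Prod.smul_snd, smul_eq_mul] at hpq ⊢
      linear_combination (-z.2) * hpq
  have lin : ∀ a b : V, ∀ α β : ℤ, sg a (sg b (α • p + β • q)) =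
      α • sg a (sg b p) + β • sg a (sg b q) := by
    intro a b α β
    ext <;> simp [sg, det] <;> ring
  rw [hz, lin, lin, hp, hq]

lemma sgsg_apply (u v z : V) :
    sg u (sg v z) = z - det v z • v - (det u z - det v z * det u v) • u := by
  ext <;> simp only [sg, det, Prod.fst_sub, Prod.snd_sub, Prod.smul_fst, Prod.smul_snd,
    smul_eq_mul] <;> ring

lemma quad_of_sgsg {u v u' v' : V} (H : ∀ z, sg u (sg v z) = sg u' (sg v' z))
    (hX : 0 < det u u') (hY : 0 < det u' v) (h1 : 0 ≤ det u v) (h2 : 0 ≤ det u' v') :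
    Quad u u' v v' (det u u') (det u' v) (det u v) := by
  have htr : det u v ^ 2 = det u' v' ^ 2 := by
    have e1 := congrArg Prod.fst (H (1, 0))
    have e2 := congrArg Prod.snd (H (0, 1))
    simp [sg, det] at e1 e2
    simp only [det]
    linear_combination -e1 - e2
  have hd' : det u v = det u' v' := (sq_eq_sq₀ h1 h2).1 htr
  -- the two vector relations
  have Hv := H v
  have Hv' := H v'
  rw [sgsg_apply, sgsg_apply] at Hv Hv'
  rw [det_self] at Hv Hv'
  have s1 := det_swap v' v
  have eqn : det u v ^ 2 = det v v' ^ 2 + det v v' * det u v * det u' v + det u' v ^ 2 := by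
    have := congrArg (det v) Hv
    simp only [sub_eq_add_neg, det_add_right, det_neg_right, det_smul_right, det_self] at this
    rw [s1, ← hd', det_swap v u, det_swap v u'] at this
    linear_combination this
  have hδ : 0 < det u v := by
    rcases h1.lt_or_eq with h | h
    · exact h
    · exfalso
      rw [← h] at eqn
      nlinarith [sq_nonneg (det v v')]
  have hZ : det v v' = det u u' := by
    have := congrArg (det u) Hv'
    simp only [sub_eq_add_neg, det_add_right, det_neg_right, det_smul_right, det_self] at this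
    rw [← hd'] at this
    have h3 : det u v * (det v v' - det u u') = 0 := by linear_combination -this
    rcases mul_eq_zero.1 h3 with h4 | h4
    · exact absurd h4 hδ.ne'
    · linarith
  have hW : det u v' = det u' v + det u v * det u u' := by
    have := congrArg (det v) Hv'
    simp only [sub_eq_add_neg, det_add_right, det_neg_right, det_smul_right, det_self] at this
    rw [← hd', hZ, det_swap v u, det_swap v u'] at this
    have h3 : det u v * (det u v' - (det u' v + det u v * det u u')) = 0 := by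
      linear_combination this
    rcases mul_eq_zero.1 h3 with h4 | h4
    · exact absurd h4 hδ.ne'
    · linarith
  refine ⟨hX, hY, hδ, rfl, hd'.symm, rfl, rfl, hZ, hW, ?_, ?_⟩
  · rw [hZ] at eqn; linear_combination -eqn
  · rw [hZ, hW] at Hv'
    have e1 := congrArg Prod.fst Hv'
    have e2 := congrArg Prod.snd Hv'
    simp only [Prod.fst_sub, Prod.snd_sub, Prod.smul_fst, Prod.smul_snd, smul_eq_mul] at e1 e2
    rw [← hd'] at e1 e2
    ext
    · simp only [Prod.fst_add, Prod.smul_fst, smul_eq_mul]
      linear_combination e1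
    · simp only [Prod.snd_add, Prod.smul_snd, smul_eq_mul]
      linear_combination e2

/-- Further relation. -/
lemma Quad.vP {P Q R S : V} {X Y d : ℤ} (h : Quad P Q R S X Y d) :
    d • P = (Y + d * X) • Q - X • S := by
  have hd := h.hd
  apply ext_det (e := P) (f := Q) (by rw [h.PQ]; exact h.hX.ne')
  · rw [det_smul_sub_right, det_smul_right, det_smul_right, det_self, h.PQ, h.PS]; ring
  · rw [det_smul_sub_right, det_smul_right, det_smul_right, det_self, h.QS, det_swap, h.PQ]; ring

lemma Quad.vS {P Q R S : V} {X Y d : ℤ} (h : Quad P Q R S X Y d) :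
    Y • S = d • R - X • Q := by
  apply ext_det (e := P) (f := R) (by rw [h.PR]; exact h.hd.ne')
  · rw [det_smul_sub_right, det_smul_right, det_smul_right, h.PQ, h.PS, h.PR]
    linear_combination h.eqn
  · rw [det_smul_sub_right, det_smul_right, det_smul_right, det_self, h.RS, det_swap, h.QR]; ring

/-- Three solutions are impossible: arithmetic part. -/
lemma no_three {a b c Ys Yv d : ℤ} (ha : 0 < a) (hb : 0 < b) (hc : 0 < c) (hYs : 0 < Ys)
    (hYv : 0 < Yv) (hd : 0 < d)
    (e1 : a ^ 2 + d * a * Ys + Ys ^ 2 = d ^ 2) (e2 : c ^ 2 + d * c * Yv + Yv ^ 2 = d ^ 2)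
    (e3 : d * b = Ys * Yv - a * c) (hdiv : d ∣ 2 * (a * b * c)) : False := by
  have h1 : a * Ys < d := by
    have : d * (a * Ys) < d * d := by nlinarith
    exact lt_of_mul_lt_mul_left this hd.le
  have h2 : c * Yv < d := by
    have : d * (c * Yv) < d * d := by nlinarith
    exact lt_of_mul_lt_mul_left this hd.le
  have h3 : (a * Ys) * (c * Yv) < d * d :=
    mul_lt_mul'' h1 h2 (by positivity) (by positivity)
  have h4 : (a * Ys) * (c * Yv) = d * (a * b * c) + (a * c) ^ 2 := by
    linear_combination -(a * c) * e3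
  have h5 : a * b * c < d := by
    have : d * (a * b * c) < d * d := by nlinarith [sq_nonneg (a * c)]
    exact lt_of_mul_lt_mul_left this hd.le
  obtain ⟨k, hk⟩ := hdiv
  have h6 : 0 < a * b * c := by positivity
  have hk1 : 0 < k := by
    by_contra hcon
    push Not at hcon
    nlinarith
  have hk2 : k < 2 := by
    by_contra hcon
    push Not at hcon
    nlinarith
  have hk3 : k = 1 := by omega
  rw [hk3, mul_one] at hk
  -- now d = 2abc
  have hda : a ^ 2 ∣ Ys ^ 2 := by
    refine ⟨4 * b ^ 2 * c ^ 2 - 1 - 2 * b * c * Ys, ?_⟩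
    rw [← hk] at e1
    linear_combination e1
  have hdc : c ^ 2 ∣ Yv ^ 2 := by
    refine ⟨4 * a ^ 2 * b ^ 2 - 1 - 2 * a * b * Yv, ?_⟩
    rw [← hk] at e2
    linear_combination e2
  rw [Int.pow_dvd_pow_iff (by norm_num)] at hda hdc
  obtain ⟨Y₁, rfl⟩ := hda
  obtain ⟨Y₃, rfl⟩ := hdc
  have f1 : 1 + 2 * (a * (b * c)) * Y₁ + Y₁ ^ 2 = 4 * (b * c) ^ 2 := by
    have : a ^ 2 * (1 + 2 * (a * (b * c)) * Y₁ + Y₁ ^ 2) = a ^ 2 * (4 * (b * c) ^ 2) := by
      rw [← hk] at e1
      linear_combination e1
    exact mul_left_cancel₀ (by positivity) this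
  have f2 : 1 + 2 * (c * (a * b)) * Y₃ + Y₃ ^ 2 = 4 * (a * b) ^ 2 := by
    have : c ^ 2 * (1 + 2 * (c * (a * b)) * Y₃ + Y₃ ^ 2) = c ^ 2 * (4 * (a * b) ^ 2) := by
      rw [← hk] at e2
      linear_combination e2
    exact mul_left_cancel₀ (by positivity) this
  have f3 : Y₁ * Y₃ = 2 * b ^ 2 + 1 := by
    have : (a * c) * (Y₁ * Y₃) = (a * c) * (2 * b ^ 2 + 1) := by
      rw [← hk] at e3
      linear_combination -e3
    exact mul_left_cancel₀ (by positivity) this
  -- reduce modulo 8
  have g1 := congrArg (Int.cast : ℤ → ZMod 8) f1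
  have g2 := congrArg (Int.cast : ℤ → ZMod 8) f2
  have g3 := congrArg (Int.cast : ℤ → ZMod 8) f3
  push_cast at g1 g2 g3
  generalize (a : ZMod 8) = a' at g1 g2 g3
  generalize (b : ZMod 8) = b' at g1 g2 g3
  generalize (c : ZMod 8) = c' at g1 g2 g3
  generalize (Y₁ : ZMod 8) = y1 at g1 g2 g3
  generalize (Y₃ : ZMod 8) = y3 at g1 g2 g3
  have L1 : ∀ p u y : ZMod 8, 1 + 2 * (p * u) * y + y ^ 2 = 4 * u ^ 2 →
      2 * (p * u) * y = 2 ∧ 4 * u = 4 := by decide
  have L2 : ∀ p q : ZMod 8, 4 * (p * q) = 4 → 4 * p = 4 := by decide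
  have L3 : ∀ t y z : ZMod 8, 2 * t * y = 2 → 2 * t * z = 2 → 2 * (y * z) = 2 := by decide
  have L4 : ∀ b : ZMod 8, 2 * (2 * b ^ 2 + 1) = 2 → 4 * b = 4 → False := by decide
  obtain ⟨k1, k2⟩ := L1 _ _ _ g1
  obtain ⟨k3, k4⟩ := L1 _ _ _ g2
  have k5 : c' * (a' * b') = a' * (b' * c') := by ring
  rw [k5] at k3
  have k6 := L3 _ _ _ k1 k3
  rw [g3] at k6
  exact L4 _ k6 (L2 _ _ k2)

/-- Three pairwise compatible solutions do not exist. -/
lemma no_three_quads {P Q Q' R S S' P' T T' : V} {X Y X' Y' X'' Y'' d d' d'' : ℤ}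
    (h1 : Quad P Q R S X Y d) (h2 : Quad P Q' R S' X' Y' d')
    (h3 : Quad Q Q' S S' X'' Y'' d'')
    (hP : det P P' = 1) (hQ : det Q T = 1) (hQ' : det Q' T' = 1) : False := by
  have hd1 : d' = d := by rw [← h1.PR, ← h2.PR]
  have hd2 : d'' = d := by rw [← h1.QS, ← h3.PR]
  subst hd1
  subst hd2
  -- d'' is now the common value
  have hd := h1.hd
  have key1 : d'' * X'' = Y * X' - X * Y' := by
    have e1 := h1.vQ
    have e2 := h2.vQ
    have h4 : det (d'' • Q) (d'' • Q') = d'' * (d'' * X'') := by
      rw [← h3.PQ]; simp [det]; ring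
    have h5 : det (d'' • Q) (d'' • Q') = d'' * (Y * X' - X * Y') := by
      rw [e1, e2]
      have : det P R = d'' := h1.PR
      rw [← this]
      simp [det]; ring
    have h6 : d'' * (d'' * X'' - (Y * X' - X * Y')) = 0 := by linear_combination h5 - h4
    rcases mul_eq_zero.1 h6 with h7 | h7
    · exact absurd h7 hd.ne'
    · linarith
  have expand : ∀ A B C : V, det A B = 1 → C = det C B • A + det A C • B := by
    intro A B C h
    ext
    · simp only [det, Prod.fst_add, Prod.smul_fst, smul_eq_mul] at h ⊢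
      linear_combination (-C.1) * h
    · simp only [det, Prod.snd_add, Prod.smul_snd, smul_eq_mul] at h ⊢
      linear_combination (-C.2) * h
  have hR := expand P P' R hP
  have hS := expand Q T S hQ
  have hS' := expand Q' T' S' hQ'
  rw [h1.PR] at hR
  rw [h1.QS] at hS
  rw [h2.QS] at hS'
  set lP := det R P' with hlP
  set lQ := det S T with hlQ
  set lQ' := det S' T' with hlQ'
  -- the six congruences
  have c1 : Y + lP * X = d'' * det Q P' := by
    have := congrArg (det Q) hR
    rw [det_add_right, det_smul_right, det_smul_right, h1.QR, det_swap Q P, h1.PQ] at this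
    linear_combination this
  have c2 : Y - lQ * X = d'' * (det P T - X) := by
    have := congrArg (det P) hS
    rw [det_add_right, det_smul_right, det_smul_right, h1.PS, h1.PQ] at this
    linear_combination this
  have c3 : Y' + lP * X' = d'' * det Q' P' := by
    have := congrArg (det Q') hR
    rw [det_add_right, det_smul_right, det_smul_right, h2.QR, det_swap Q' P, h2.PQ] at this
    linear_combination this
  have c4 : Y' - lQ' * X' = d'' * (det P T' - X') := by
    have := congrArg (det P) hS'
    rw [det_add_right, det_smul_right, det_smul_right, h2.PS, h2.PQ] at this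
    linear_combination this
  have c5 : Y'' + lQ * X'' = d'' * det Q' T := by
    have := congrArg (det Q') hS
    rw [det_add_right, det_smul_right, det_smul_right, h3.QR, det_swap Q' Q, h3.PQ] at this
    linear_combination this
  have c6 : Y'' - lQ' * X'' = d'' * (det Q T' - X'') := by
    have := congrArg (det Q) hS'
    rw [det_add_right, det_smul_right, det_smul_right, h3.PS, h3.PQ] at this
    linear_combination this
  have hdiv : d'' ∣ 2 * (X * X'' * Y') := by
    refine ⟨X * X'' * det Q' P' + X * X'' * (det P T' - X') -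
      X'' * X' * (det Q P' - (det P T - X)) + X * X' * (det Q' T - (det Q T' - X'')), ?_⟩
    linear_combination X * X'' * c3 + X * X'' * c4 - X'' * X' * (c1 - c2) + X * X' * (c5 - c6)
  refine no_three (a := X) (b := X'') (c := Y') (Ys := Y) (Yv := X') (d := d'')
    h1.hX h3.hX h2.hY h1.hY h2.hX hd ?_ ?_ key1 hdiv
  · exact h1.eqn
  · have := h2.eqn
    linear_combination this

end Pool.Agent.Lib.MP_7470a2_gt
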