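import Pool.Agent.Lib.MP_7470a2_gt.Defs

/-!
# Continued fractions, unimodular chains of vectors in the plane
-/

namespace Pool.Agent.Lib.MP_7470a2_gt

/-- Vectors in the lattice `ℤ²`. -/
abbrev V := ℤ × ℤ

/-- Determinant of two vectors. -/
def det (x y : V) : ℤ := x.1 * y.2 - x.2 * y.1

lemma det_smul_sub_left (c : ℤ) (x y z : V) : det (c • x - y) z = c * det x z - det y z := by
  simp [det]; ring

lemma det_smul_sub_right (c : ℤ) (x y z : V) : det z (c • x - y) = c * det z x - det z y := by
  simp [det]; ring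

lemma det_self (x : V) : det x x = 0 := by simp [det]; ring

lemma det_swap (x y : V) : det x y = - det y x := by simp [det]; ring

lemma det_neg_right (x y : V) : det x (-y) = - det x y := by simp [det]; ring

lemma det_neg_left (x y : V) : det (-x) y = - det x y := by simp [det]; ring

lemma det_add_right (x y z : V) : det x (y + z) = det x y + det x z := by simp [det]; ring

lemma det_smul_right (c : ℤ) (x y : V) : det x (c • y) = c * det x y := by simp [det]; ring

/-- The transvection `x ↦ x - det(u,x) u`. -/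
def sg (u x : V) : V := x - det u x • u

lemma sg_smul_sub (u : V) (c : ℤ) (x y : V) : sg u (c • x - y) = c • sg u x - sg u y := by
  ext <;> simp [sg, det] <;> ring

lemma sg_self (u : V) : sg u u = u := by
  ext <;> simp [sg, det, mul_comm]

lemma det_sg (u x y : V) : det (sg u x) (sg u y) = det x y := by
  simp [sg, det]; ring

lemma sg_sg (u v x : V) : sg (sg u v) (sg u x) = sg u (sg v x) := by
  ext <;> simp [sg, det] <;> ring

/-- The chain of vectors `w₀ = x`, `w₁ = y`, `w_{l+2} = c_l w_{l+1} - w_l`. -/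
def ch (x y : V) (c : ℕ → ℤ) : ℕ → V
  | 0 => x
  | 1 => y
  | (l + 2) => c l • ch x y c (l + 1) - ch x y c l

section chain

variable (x y : V) (c : ℕ → ℤ)

@[simp] lemma ch_zero : ch x y c 0 = x := rfl
@[simp] lemma ch_one : ch x y c 1 = y := rfl
lemma ch_succ_succ (l : ℕ) : ch x y c (l + 2) = c l • ch x y c (l + 1) - ch x y c l := rfl

lemma det_ch_succ (h : det x y = 1) (l : ℕ) : det (ch x y c l) (ch x y c (l + 1)) = 1 := by
  induction l with
  | zero => simpa using h
  | succ l ih =>
    rw [ch_succ_succ, det_smul_sub_right, det_self, det_swap]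
    simpa using ih

lemma det_ch_succ_succ (h : det x y = 1) (l : ℕ) :
    det (ch x y c l) (ch x y c (l + 2)) = c l := by
  rw [ch_succ_succ, det_smul_sub_right, det_self, det_ch_succ x y c h]
  ring

/-- Positivity along a chain all of whose entries are at least two. -/
lemma det_ch_mono (h : det x y = 1) {s : ℕ} (hc : ∀ l < s, 2 ≤ c l) (l m : ℕ)
    (hm : l + m ≤ s) :
    det (ch x y c l) (ch x y c (l + m)) + 1 ≤ det (ch x y c l) (ch x y c (l + m + 1)) ∧
      (m : ℤ) ≤ det (ch x y c l) (ch x y c (l + m)) := by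
  induction m with
  | zero =>
    simp [det_self, det_ch_succ x y c h]
  | succ m ih =>
    obtain ⟨h1, h2⟩ := ih (by omega)
    have h3 : ch x y c (l + (m + 1) + 1) =
        c (l + m) • ch x y c (l + m + 1) - ch x y c (l + m) := rfl
    have h4 : l + (m + 1) = l + m + 1 := rfl
    rw [h3, det_smul_sub_right, h4]
    have h5 := hc (l + m) (by omega)
    constructor
    · nlinarith
    · push_cast; linarith

lemma det_ch_pos (h : det x y = 1) {s : ℕ} (hc : ∀ l < s, 2 ≤ c l) {l m : ℕ}
    (hlm : l < m) (hm : m ≤ s + 1) : 0 < det (ch x y c l) (ch x y c m) := by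
  obtain ⟨r, rfl⟩ : ∃ r, m = l + r + 1 := ⟨m - l - 1, by omega⟩
  obtain ⟨h1, h2⟩ := det_ch_mono x y c h hc l r (by omega)
  have : (0 : ℤ) ≤ r := by positivity
  linarith

/-- Plücker relation. -/
lemma plucker (a b c d : V) : det a b * det c d - det a c * det b d + det a d * det b c = 0 := by
  simp [det]; ring

/-- A vector is determined by its determinants with a basis. -/
lemma ext_det {e f : V} (hef : det e f ≠ 0) {z z' : V} (h1 : det e z = det e z')
    (h2 : det f z = det f z') : z = z' := by
  have key1 : det e f * (z.1 - z'.1) = 0 := by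
    have : det e f * (z.1 - z'.1) = f.1 * (det e z - det e z') - e.1 * (det f z - det f z') := by
      simp [det]; ring
    rw [this, h1, h2]; ring
  have key2 : det e f * (z.2 - z'.2) = 0 := by
    have : det e f * (z.2 - z'.2) = f.2 * (det e z - det e z') - e.2 * (det f z - det f z') := by
      simp [det]; ring
    rw [this, h1, h2]; ring
  rcases mul_eq_zero.1 key1 with h | h
  · exact absurd h hef
  rcases mul_eq_zero.1 key2 with h' | h'
  · exact absurd h' hef
  ext
  · linarith
  · linarith

end chain

/-- Lowering one entry of a chain. -/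
lemma ch_lower (x y : V) (h : det x y = 1) (c c' : ℕ → ℤ) (i : ℕ)
    (hi : c' i = c i - 1) (hne : ∀ l, l ≠ i → c' l = c l) (l : ℕ) :
    (l ≤ i + 1 → ch x y c' l = ch x y c l) ∧
      (i + 1 ≤ l → ch x y c' l = sg (ch x y c (i + 1)) (ch x y c l)) := by
  have A : ∀ l, l ≤ i → ch x y c' l = ch x y c l ∧ ch x y c' (l + 1) = ch x y c (l + 1) := by
    intro l hl
    induction l with
    | zero => simp
    | succ l ih =>
      obtain ⟨h1, h2⟩ := ih (by omega)
      refine ⟨h2, ?_⟩
      rw [ch_succ_succ, ch_succ_succ, h1, h2, hne l (by omega)]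
  have B : ∀ r, ch x y c' (i + 1 + r) = sg (ch x y c (i + 1)) (ch x y c (i + 1 + r)) ∧
      ch x y c' (i + 1 + r + 1) = sg (ch x y c (i + 1)) (ch x y c (i + 1 + r + 1)) := by
    intro r
    induction r with
    | zero =>
      refine ⟨?_, ?_⟩
      · rw [Nat.add_zero, sg_self]; exact (A i le_rfl).2
      · have e1 : ch x y c' (i + 1 + 0 + 1) = c' i • ch x y c' (i + 1) - ch x y c' i := rfl
        have e2 : ch x y c (i + 1 + 0 + 1) = c i • ch x y c (i + 1) - ch x y c i := rfl
        rw [e1, e2, (A i le_rfl).1, (A i le_rfl).2, hi, sg, det_smul_sub_right, det_self,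
          det_swap, det_ch_succ x y c h]
        ext <;> simp <;> ring
    | succ r ih =>
      obtain ⟨h1, h2⟩ := ih
      refine ⟨h2, ?_⟩
      have e1 : ch x y c' (i + 1 + (r + 1) + 1) =
        c' (i + 1 + r) • ch x y c' (i + 1 + r + 1) - ch x y c' (i + 1 + r) := rfl
      have e2 : ch x y c (i + 1 + (r + 1) + 1) =
        c (i + 1 + r) • ch x y c (i + 1 + r + 1) - ch x y c (i + 1 + r) := rfl
      rw [e1, e2, h1, h2, hne _ (by omega), sg_smul_sub]
  constructor
  · intro hl
    rcases Nat.lt_or_ge l (i + 1) with h1 | h1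
    · exact (A l (by omega)).1
    · obtain rfl : l = i + 1 := by omega
      exact (A i le_rfl).2
  · intro hl
    obtain ⟨r, rfl⟩ : ∃ r, l = i + 1 + r := ⟨l - (i + 1), by omega⟩
    exact (B r).1

/-- The matrix product `∏ (k_i, -1; 1, 0)` acting on column vectors. -/
def act : List ℕ → V → V
  | [], z => z
  | k :: l, z => ((k : ℤ) * (act l z).1 - (act l z).2, (act l z).1)

lemma act_nil (z : V) : act [] z = z := rfl

lemma act_cons (k : ℕ) (l : List ℕ) (z : V) :
    act (k :: l) z = ((k : ℤ) * (act l z).1 - (act l z).2, (act l z).1) := rfl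

/-- The numerator of the continued fraction. -/
def num (k : List ℕ) : ℤ := (act k (1, 0)).1

lemma num_nil : num [] = 1 := rfl

lemma num_cons (c : ℕ) (l : List ℕ) :
    num (c :: l) = (c : ℤ) * num l - (act l (1, 0)).2 := rfl

lemma act_cons_snd (c : ℕ) (l : List ℕ) : (act (c :: l) (1, 0)).2 = num l := rfl

/-- The entries of a list as an integer valued function. -/
def fn (k : List ℕ) (l : ℕ) : ℤ := (k.getD l 0 : ℤ)

lemma fn_cons_zero (c : ℕ) (k : List ℕ) : fn (c :: k) 0 = c := rfl

lemma fn_cons_succ (c : ℕ) (k : List ℕ) (l : ℕ) : fn (c :: k) (l + 1) = fn k l := rfl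

lemma ch_shift (x y : V) (c : ℕ → ℤ) (l : ℕ) :
    ch x y c (l + 1) = ch y (c 0 • y - x) (fun t => c (t + 1)) l := by
  have : ∀ l, ch x y c (l + 1) = ch y (c 0 • y - x) (fun t => c (t + 1)) l ∧
      ch x y c (l + 2) = ch y (c 0 • y - x) (fun t => c (t + 1)) (l + 1) := by
    intro l
    induction l with
    | zero => exact ⟨rfl, rfl⟩
    | succ l ih =>
      refine ⟨ih.2, ?_⟩
      have e1 : ch x y c (l + 1 + 2) = c (l + 1) • ch x y c (l + 2) - ch x y c (l + 1) := rfl
      rw [e1, ih.1, ih.2]
      rfl
  exact (this l).1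

/-- The last two vectors of a chain in terms of the matrix product. -/
lemma ch_length (k : List ℕ) : ∀ x y : V,
    ch x y (fn k) (k.length + 1) = (act k (1, 0)).1 • y - (act k (1, 0)).2 • x ∧
    ch x y (fn k) k.length = (-(act k (0, 1)).1) • y + (act k (0, 1)).2 • x := by
  induction k with
  | nil =>
    intro x y
    constructor
    · ext <;> simp [act_nil]
    · ext <;> simp [act_nil]
  | cons c k ih =>
    intro x y
    obtain ⟨h1, h2⟩ := ih y ((c : ℤ) • y - x)
    have e : (fun t => fn (c :: k) (t + 1)) = fn k := by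
      funext t; exact fn_cons_succ c k t
    constructor
    · rw [List.length_cons, ch_shift, e, fn_cons_zero, h1]
      ext <;> simp [act_cons] <;> ring
    · rw [List.length_cons, ch_shift, e, fn_cons_zero, h2]
      ext <;> simp [act_cons] <;> ring

lemma fn_drop (k : List ℕ) (m l : ℕ) : fn (k.drop m) l = fn k (m + l) := by
  simp [fn, List.getD]

/-- Numerators of suffixes as determinants. -/
lemma num_drop (x y : V) (h : det x y = 1) (k : List ℕ) (m : ℕ) (hm : m ≤ k.length) :
    num (k.drop m) = det (ch x y (fn k) m) (ch x y (fn k) (k.length + 1)) := by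
  have key : ∀ m, ∀ l, ch x y (fn k) (m + l) =
      ch (ch x y (fn k) m) (ch x y (fn k) (m + 1)) (fun t => fn k (m + t)) l := by
    intro m l
    have : ∀ l, ch x y (fn k) (m + l) =
      ch (ch x y (fn k) m) (ch x y (fn k) (m + 1)) (fun t => fn k (m + t)) l ∧
      ch x y (fn k) (m + (l + 1)) =
      ch (ch x y (fn k) m) (ch x y (fn k) (m + 1)) (fun t => fn k (m + t)) (l + 1) := by
      intro l
      induction l with
      | zero => exact ⟨rfl, rfl⟩
      | succ l ih =>
        refine ⟨ih.2, ?_⟩
        have e1 : ch x y (fn k) (m + (l + 1 + 1)) =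
          fn k (m + l) • ch x y (fn k) (m + (l + 1)) - ch x y (fn k) (m + l) := rfl
        rw [e1, ih.1, ih.2]
        rfl
    exact (this l).1
  have e : (fun t => fn k (m + t)) = fn (k.drop m) := by
    funext t; rw [fn_drop]
  have h1 := (ch_length (k.drop m) (ch x y (fn k) m) (ch x y (fn k) (m + 1))).1
  rw [← e, ← key] at h1
  have h2 : m + ((k.drop m).length + 1) = k.length + 1 := by
    simp; omega
  rw [h2] at h1
  rw [h1]
  have h3 := det_ch_succ x y (fn k) h m
  rw [show (act (List.drop m k) (1, 0)).1 • ch x y (fn k) (m + 1) -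
    (act (List.drop m k) (1, 0)).2 • ch x y (fn k) m = num (k.drop m) • ch x y (fn k) (m + 1) -
    ((act (List.drop m k) (1, 0)).2 • ch x y (fn k) m) from rfl, det_smul_sub_right, h3,
    det_smul_right, det_self]
  ring

end Pool.Agent.Lib.MP_7470a2_gt
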