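import Mathlib

/-!
# Lisca's data for the symplectic fillings of lens spaces with `b₂ = 1`
-/

namespace Pool.Agent.Lib.MP_7470a2_gt

/-- The Hirzebruch–Jung continued fraction `[c₁, …, c_s] = c₁ - 1/(c₂ - 1/(⋯ - 1/c_s))`. -/
def hj : List ℕ → ℚ
  | [] => 0
  | c :: l => c - (hj l)⁻¹

/-- A tuple `(k₁, …, k_s)` is admissible if all the denominators which occur in the continued
fraction `[k₁, …, k_s]`, that is all the numbers `[k_i, …, k_s]` with `2 ≤ i ≤ s`, are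
positive. -/
def Admissible (k : List ℕ) : Prop :=
  ∀ l : List ℕ, l ≠ [] → l <:+ k.tail → 0 < hj l

/-- `FillingData n a` is the set of the tuples `k` which, in Lisca's classification, give the
minimal symplectic fillings `W(k)` of `(L(n,a), ξ_std)` with `b₂(W(k)) = 1`: with
`n / (n - a) = [b₁, …, b_s]`, all `b_i ≥ 2`, these are the admissible tuples `(k₁, …, k_s)` of
nonnegative integers with `[k₁, …, k_s] = 0`, `k_i ≤ b_i` for all `i` and
`∑ (b_i - k_i) = 1 + b₂ = 2`. -/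
def FillingData (n a : ℕ) : Set (List ℕ) :=
  {k | ∃ b : List ℕ, (∀ c ∈ b, 2 ≤ c) ∧ hj b = (n : ℚ) / ((n : ℚ) - a) ∧
    List.Forall₂ (· ≤ ·) k b ∧ Admissible k ∧ hj k = 0 ∧ b.sum = k.sum + 2}

/-- Lisca's criterion: two tuples give equivalent fillings of `L(n,a)` if and only if they are
equal, or `a² ≡ 1` modulo `n` and one is the reverse of the other. -/
def SameFilling (n a : ℕ) (k k' : List ℕ) : Prop :=
  k' = k ∨ (a ^ 2 ≡ 1 [MOD n] ∧ k' = k.reverse)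

/-- `L(n,a)` has exactly two fillings with `b₂ = 1`, up to equivalence. -/
def ExactlyTwo (n a : ℕ) : Prop :=
  ∃ k₁ ∈ FillingData n a, ∃ k₂ ∈ FillingData n a, ¬ SameFilling n a k₁ k₂ ∧
    ∀ k ∈ FillingData n a, SameFilling n a k₁ k ∨ SameFilling n a k₂ k

/-- Integers `X, Y, δ, κ, p, s, m, m', t`, see `Datum.IsFor`. -/
@[ext]
structure Datum where
  (X Y δ κ p s m m' t : ℤ)

/-- The conditions on the nine integers, and the formulas for `n` and `a`. Here `κ` is a residue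
modulo `Y`, and `p`, `s`, `t` are determined by `X, Y, δ, κ, m, m'`. -/
structure Datum.IsFor (q : Datum) (n a : ℕ) : Prop where
  X_pos : 0 < q.X
  Y_pos : 0 < q.Y
  δ_pos : 0 < q.δ
  norm : q.X ^ 2 + q.δ * q.X * q.Y + q.Y ^ 2 = q.δ ^ 2
  κ_nonneg : 0 ≤ q.κ
  κ_lt : q.κ < q.Y
  eq_p : q.p * q.Y = q.δ - q.κ * q.X
  eq_s : q.s * q.Y = q.κ * q.δ - q.X
  coprime_κ : IsCoprime q.κ q.Y
  coprime_p : IsCoprime q.p q.X
  coprime_s : IsCoprime q.s q.δ
  m_pos : 0 < q.m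
  m'_pos : 0 < q.m'
  lt : q.X * q.m' < q.Y * q.m
  eq_t : q.δ * q.t = q.m' - q.s * q.m
  coprime_t : IsCoprime q.t q.m
  eq_n : (n : ℤ) = q.m ^ 2 + q.δ * q.m * q.m' + q.m' ^ 2
  eq_a₁ : (n : ℤ) ∣ (a + 1) * q.m + q.δ * q.m'
  eq_a₂ : (n : ℤ) ∣ (a + 1) * q.t + a * q.m - q.s * q.m'

end Pool.Agent.Lib.MP_7470a2_gt
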