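import Pool.Agent.Lib.MP_7470a2_gt.OnChain

/-!
# The parametrisation
-/

namespace Pool.Agent.Lib.MP_7470a2_gt

lemma prim_coord {e f u u₀ : V} (h : det e f = 1) (hu : det u u₀ = 1) :
    IsCoprime (det u f) (det e u) := by
  refine ⟨det e u₀, det f u₀, ?_⟩
  have hex := expand_in h u
  have : det u u₀ = det e u₀ * det u f + det f u₀ * det e u := by
    conv_lhs => rw [hex]
    simp [det]; ring
  linarith

/-- Two solutions give a datum. -/
lemma exists_datum {b k k' : List ℕ} (hb : ∀ c ∈ b, 2 ≤ c) {n a : ℕ} (hn : num b = n)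
    (ha : (act b (1, 0)).2 = (n : ℤ) - a) {i j i' j' : ℕ} (h : Sol b k i j)
    (h' : Sol b k' i' j') (hlt : i < i') : ∃ q : Datum, q.IsFor n a := by
  have hxy := det_std
  set x : V := (0, -1) with hx
  set y : V := (1, 0) with hy
  have hq := h.lt_of_lt hxy hb h' hlt
  have hB := h.id2 hxy hb
  have hB' := h'.id2 hxy hb
  have hi := h.hij
  have hj := h.hj
  have hi' := h'.hij
  have hj' := h'.hj
  have pos : ∀ l m, l < m → m ≤ b.length + 1 → 0 < det (ch x y (fn b) l) (ch x y (fn b) m) :=
    fun l m h1 h2 => w_pos hxy hb h1 h2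
  have hxP : 0 < det x (ch x y (fn b) (i + 1)) := by
    simpa using pos 0 (i + 1) (by omega) (by omega)
  have hxQ : 0 < det x (ch x y (fn b) (i' + 1)) := by
    simpa using pos 0 (i' + 1) (by omega) (by omega)
  have hSB : 0 < det (ch x y (fn b) (j' + 1)) (ch x y (fn b) (b.length + 1)) :=
    pos _ _ (by omega) (by omega)
  have hP1 := det_ch_succ x y (fn b) hxy (i + 1)
  have hQ1 := det_ch_succ x y (fn b) hxy (i' + 1)
  have hR1 := det_ch_succ x y (fn b) hxy (j + 1)
  have hS1 := det_ch_succ x y (fn b) hxy (j' + 1)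
  have hfin := (ch_length b x y).1
  rw [ha, show (act b (1, 0)).1 = (n : ℤ) from hn] at hfin
  have hnAB : det x (ch x y (fn b) (b.length + 1)) = n := by
    rw [hfin, det_smul_sub_right, det_smul_right, det_self, hxy]; ring
  set P := ch x y (fn b) (i + 1) with hP
  set Q := ch x y (fn b) (i' + 1) with hQ
  set R := ch x y (fn b) (j + 1) with hR
  set S := ch x y (fn b) (j' + 1) with hS
  set B := ch x y (fn b) (b.length + 1) with hBd
  set Q1 := ch x y (fn b) (i' + 1 + 1) with hQ1d
  set X := det P Q with hX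
  set Y := det Q R with hY
  set δ := det P R with hδ
  -- the second basis vector
  set Q2 : V := Q1 + (det R Q1 / Y) • Q with hQ2
  have hQQ2 : det Q Q2 = 1 := by
    rw [hQ2, det_add_right, det_smul_right, det_self, hQ1]; ring
  have hRQ2 : det R Q2 = det R Q1 % Y := by
    rw [hQ2, det_add_right, det_smul_right, det_swap R Q, ← hY, Int.emod_def]; ring
  set κ := det R Q2 with hκ
  set p := det P Q2 with hp
  set s := det S Q2 with hs
  set m := det x Q with hm
  set m' := det S B with hm'
  set t := det x Q2 - m with ht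
  have e_p : p * Y = δ - κ * X := by
    have := congrArg (fun z => det z Q2) hq.vQ
    rw [det_swap, det_smul_right, det_swap _ Q2, det_add_right, det_smul_right, det_smul_right,
      det_swap Q2 Q, det_swap Q2 R, det_swap Q2 P, hQQ2] at this
    linear_combination -this
  have e_s : s * Y = κ * δ - X := by
    have := congrArg (fun z => det z Q2) hq.vS
    rw [det_swap, det_smul_right, det_smul_sub_left, det_swap Q2 S,
      show det (X • Q) Q2 = X * det Q Q2 by simp [det]; ring, hQQ2] at this
    linear_combination this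
  -- first solution
  have f1 : δ * det x P = Y * m - X * m' := by
    have h1 : det (x + B) R = det x P * δ := by
      rw [det_swap, hB, det_add_right, det_smul_right, det_smul_right, det_self, det_swap R P]
      ring
    have h2 : det (x + B) R = m * Y - m' * X := by
      rw [det_swap, hB', det_add_right, det_smul_right, det_smul_right, det_swap R Q, hq.RS]
      ring
    linarith
  have hxcoord : det x P = p * m - X * (t + m) := by
    have h1 := expand_in hQQ2 x
    have h2 := expand_in hQQ2 P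
    have e1 : det Q x = -m := det_swap _ _
    have e2 : det Q P = -X := det_swap _ _
    rw [e1] at h1
    rw [e2] at h2
    have e3 : det x Q2 = t + m := by rw [ht]; ring
    rw [e3] at h1
    rw [h1, h2]
    have : det ((t + m) • Q + (-m) • Q2) (det P Q2 • Q + (-X) • Q2) =
        ((t + m) * (-X) - (-m) * det P Q2) * det Q Q2 := by simp [det]; ring
    rw [this, hQQ2]; ring
  have f2 : δ * p - Y = X * (δ - s) := by
    have h1 : Y * (δ * p - Y) = Y * (X * (δ - s)) := by
      have h2 := hq.eqn
      linear_combination δ * e_p + X * e_s - h2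
    exact mul_left_cancel₀ hq.hY.ne' h1
  have e_t : δ * t = m' - s * m := by
    have h1 : X * (δ * t) = X * (m' - s * m) := by
      rw [hxcoord] at f1
      linear_combination -f1 + m * f2
    exact mul_left_cancel₀ hq.hX.ne' h1
  have f3 : det x S = m * δ + m' := by
    have h1 : det (x + B) S = m * δ := by
      rw [det_swap, hB', det_add_right, det_smul_right, det_smul_right, det_self,
        det_swap S Q, hq.QS]
      ring
    have h2 : det (x + B) S = det x S + det B S := by simp [det]; ring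
    have h3 : det B S = - m' := det_swap _ _
    linarith
  have e_n : (n : ℤ) = m ^ 2 + δ * m * m' + m' ^ 2 := by
    have h1 : det x (x + B) = n := by rw [det_add_right, det_self, hnAB]; ring
    rw [hB', det_add_right, det_smul_right, det_smul_right, f3] at h1
    linear_combination -h1
  have e_a1 : (n : ℤ) ∣ (a + 1) * m + δ * m' := by
    refine ⟨-det (y - x) Q, ?_⟩
    have h1 : det (x + B) Q = - (m' * δ) := by
      rw [det_swap, hB', det_add_right, det_smul_right, det_smul_right, det_self, hq.QS]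
      ring
    have h2 : det (x + B) Q = det x Q + (n * det y Q - (n - a) * det x Q) := by
      rw [hfin]; simp [det]; ring
    have h3 : det (y - x) Q = det y Q - det x Q := by simp [det]; ring
    rw [h3]
    rw [h2] at h1
    linear_combination h1
  have e_a2 : (n : ℤ) ∣ (a + 1) * t + a * m - s * m' := by
    refine ⟨-det (y - x) Q2, ?_⟩
    have h1 : det (x + B) Q2 = m + m' * s := by
      rw [det_swap, hB', det_add_right, det_smul_right, det_smul_right, det_swap Q2 Q,
        det_swap Q2 S, hQQ2]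
      ring
    have h2 : det (x + B) Q2 = det x Q2 + (n * det y Q2 - (n - a) * det x Q2) := by
      rw [hfin]; simp [det]; ring
    have h3 : det (y - x) Q2 = det y Q2 - det x Q2 := by simp [det]; ring
    have h4 : det x Q2 = t + m := by rw [ht]; ring
    rw [h3]
    rw [h2, h4] at h1
    rw [h4]
    linear_combination h1
  have c_t : IsCoprime t m := by
    have h1 := prim_coord hQQ2 hxy
    have h2 : det Q x = -m := det_swap _ _
    have h4 : det x Q2 = t + m := by rw [ht]; ring
    rw [h2, h4] at h1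
    have h5 : IsCoprime (t + m) m := by simpa using h1.neg_right
    have h6 : IsCoprime (t + 1 * m) m := by simpa using h5
    exact h6.of_add_mul_right_left
  have c_p : IsCoprime p X := by
    have h1 := prim_coord hQQ2 hP1
    have h2 : det Q P = -X := det_swap _ _
    rw [h2] at h1
    simpa using h1.neg_right
  have c_κ : IsCoprime κ Y := prim_coord hQQ2 hR1
  have c_s : IsCoprime s δ := by
    have h1 := prim_coord hQQ2 hS1
    rw [hq.QS] at h1
    exact h1
  refine ⟨⟨X, Y, δ, κ, p, s, m, m', t⟩, hq.hX, hq.hY, hq.hd, hq.eqn, ?_, ?_, e_p, e_s, c_κ,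
    c_p, c_s, hxQ, hSB, ?_, e_t, c_t, e_n, e_a1, e_a2⟩
  · rw [hRQ2]; exact Int.emod_nonneg _ hq.hY.ne'
  · rw [hRQ2]; exact Int.emod_lt_of_pos _ hq.hY
  · have : 0 < δ * det x P := mul_pos hq.hd hxP
    show X * m' < Y * m
    linarith


/-! ### From a datum to two solutions -/

lemma forall₂_le_trans {k l b : List ℕ} (h : List.Forall₂ (· ≤ ·) k l)
    (h' : List.Forall₂ (· ≤ ·) l b) : List.Forall₂ (· ≤ ·) k b := by
  induction h generalizing b with
  | nil => exact h'
  | cons h1 h2 ih =>
    cases h' with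
    | cons h3 h4 => exact List.Forall₂.cons (h1.trans h3) (ih h4)

/-- The list `k` for given indices. -/
lemma sol_of_idx {x y : V} (hxy : det x y = 1) {b : List ℕ} (hb : ∀ c ∈ b, 2 ≤ c) {i j : ℕ}
    (hij : i ≤ j) (hj : j < b.length)
    (hid : Id2 x (ch x y (fn b) (b.length + 1)) (ch x y (fn b) (i + 1))
      (ch x y (fn b) (j + 1))) :
    ∃ k, List.Forall₂ (· ≤ ·) k b ∧ Sol b k i j := by
  have g1 : ∀ l, l < b.length → 2 ≤ b.getD l 0 := by
    intro l hl
    have := fn_ge hb hl
    rw [fn] at this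
    exact_mod_cast this
  have h1 : 1 ≤ b.getD i 0 := by have := g1 i (by omega); omega
  have h2 : 1 ≤ (low b i).getD j 0 := by
    have h3 := low_fn b i h1 j
    have h4 := fn_ge hb hj
    have h5 : ind i j ≤ 1 := by unfold ind; split_ifs <;> norm_num
    have h6 : (1 : ℤ) ≤ fn (low b i) j := by linarith
    rw [fn] at h6
    exact_mod_cast h6
  have hlen : (low (low b i) j).length = b.length := by rw [low_length, low_length]
  have hfn : ∀ l, fn b l = fn (low (low b i) j) l + ind i l + ind j l := by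
    intro l
    rw [low_fn b i h1 l, low_fn (low b i) j h2 l]; ring
  refine ⟨low (low b i) j, ?_, hij, hj, hlen, ?_, hfn, ?_⟩
  · exact forall₂_le_trans (low_forall₂ (low b i) j) (low_forall₂ b i)
  · have h3 := low_sum b i h1
    have h4 := low_sum (low b i) j h2
    omega
  · exact (za_iff_id2 x y hxy _ b hb hlen hij hj hfn).2 hid

/-- What a datum gives on the chain of `b`. -/
structure Real (q : Datum) (b : List ℕ) (i j i' j' : ℕ) (A y : V) : Prop where
  Ay : det A y = 1
  hA : A = (q.t + q.m, -q.m)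
  hB : ch A y (fn b) (b.length + 1) = (q.m' * q.s - q.t, q.m + q.δ * q.m')
  hP : ch A y (fn b) (i + 1) = (q.p, -q.X)
  hQ : ch A y (fn b) (i' + 1) = (1, 0)
  hR : ch A y (fn b) (j + 1) = (q.κ, q.Y)
  hS : ch A y (fn b) (j' + 1) = (q.s, q.δ)

lemma sols_of_datum {n a : ℕ} (q : Datum) (hq : q.IsFor n a) {b : List ℕ}
    (hb : ∀ c ∈ b, 2 ≤ c) (hn : num b = n) (ha : (act b (1, 0)).2 = (n : ℤ) - a)
    (hn0 : 0 < n) :
    ∃ k k' i j i' j', i < i' ∧ List.Forall₂ (· ≤ ·) k b ∧ List.Forall₂ (· ≤ ·) k' b ∧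
      Sol b k i j ∧ Sol b k' i' j' ∧ ∃ A y, Real q b i j i' j' A y := by
  obtain ⟨c1, hc1⟩ := hq.eq_a₁
  obtain ⟨c2, hc2⟩ := hq.eq_a₂
  have hX := hq.X_pos
  have hY := hq.Y_pos
  have hδ := hq.δ_pos
  have hm := hq.m_pos
  have hm' := hq.m'_pos
  have e_p := hq.eq_p
  have e_s := hq.eq_s
  have e_t := hq.eq_t
  have e_n := hq.eq_n
  have e_q := hq.norm
  have hlt := hq.lt
  have k1 := hq.coprime_p
  have k2 := hq.coprime_κ
  have k3 := hq.coprime_s
  obtain ⟨X, Y, δ, κ, p, s, m, m', t⟩ := q
  simp only at *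
  have hn0' : (n : ℤ) ≠ 0 := by exact_mod_cast hn0.ne'
  set A : V := (t + m, -m) with hA
  set y : V := (t + m - c2, -m + c1) with hy
  set B : V := (m' * s - t, m + δ * m') with hB
  have hAy : det A y = 1 := by
    have : (n : ℤ) * det A y = n * 1 := by
      simp only [hA, hy, det]
      linear_combination -(t + m) * hc1 + m * hc2 - e_n + m' * e_t
    exact mul_left_cancel₀ hn0' this
  have hend : ch A y (fn b) (b.length + 1) = B := by
    rw [(ch_length b A y).1, ha, show (act b (1, 0)).1 = (n : ℤ) from hn]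
    ext
    · simp only [hA, hy, hB, Prod.fst_sub, Prod.smul_fst, smul_eq_mul]
      linear_combination hc2
    · simp only [hA, hy, hB, Prod.snd_sub, Prod.smul_snd, smul_eq_mul]
      linear_combination -hc1
  have f2 : δ * p - Y = X * (δ - s) := by
    have h1 : Y * (δ * p - Y) = Y * (X * (δ - s)) := by
      linear_combination δ * e_p + X * e_s - e_q
    exact mul_left_cancel₀ hY.ne' h1
  have f3 : -p * X + κ * Y + κ * δ * X = δ * s := by
    have h1 : Y * (-p * X + κ * Y + κ * δ * X) = Y * (δ * s) := by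
      linear_combination -X * e_p - δ * e_s + κ * e_q
    exact mul_left_cancel₀ hY.ne' h1
  have f4 : δ * det A (p, -X) = m * Y - X * m' := by
    simp only [hA, det]
    linear_combination m * f2 - X * e_t
  have f5 : δ * det (κ, Y) B = m' * (Y + δ * X) + m * X := by
    simp only [hB, det]
    linear_combination -(m + δ * m') * e_s + Y * e_t
  have hAP : 0 < det A (p, -X) := by
    have : 0 < δ * det A (p, -X) := by rw [f4]; linarith
    exact (mul_pos_iff_of_pos_left hδ).1 this
  have hRB : 0 < det (κ, Y) B := by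
    have : 0 < δ * det (κ, Y) B := by rw [f5]; positivity
    exact (mul_pos_iff_of_pos_left hδ).1 this
  have hAQ : det A (1, 0) = m := by simp [hA, det]
  have hSB : det (s, δ) B = m' := by simp only [hB, det]; linear_combination e_t
  have id1 : Id2 A B (p, -X) (κ, Y) := by
    unfold Id2
    ext
    · have : δ * (A + B).1 = δ * (det A (p, -X) • (p, -X) + det (κ, Y) B • (κ, Y)).1 := by
        simp only [Prod.fst_add, Prod.smul_fst, smul_eq_mul]
        have e1 : A.1 + B.1 = m + m' * s := by simp only [hA, hB]; ring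
        rw [e1]
        linear_combination -p * f4 - κ * f5 - m * e_p - m' * f3
      exact mul_left_cancel₀ hδ.ne' this
    · have : δ * (A + B).2 = δ * (det A (p, -X) • (p, -X) + det (κ, Y) B • (κ, Y)).2 := by
        simp only [Prod.snd_add, Prod.smul_snd, smul_eq_mul]
        have e1 : A.2 + B.2 = δ * m' := by simp [hA, hB]
        rw [e1]
        linear_combination X * f4 - Y * f5 - m' * e_q
      exact mul_left_cancel₀ hδ.ne' this
  have id2 : Id2 A B (1, 0) (s, δ) := by
    unfold Id2
    rw [hAQ, hSB]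
    ext <;> simp [hA, hB] <;> ring
  have pP : ∃ z, det (p, -X) z = 1 := by
    obtain ⟨r, r', h⟩ := k1
    exact ⟨(r', r), by simp only [det]; linarith⟩
  have pR : ∃ z, det (κ, Y) z = 1 := by
    obtain ⟨r, r', h⟩ := k2
    exact ⟨(-r', r), by simp only [det]; linarith⟩
  have pS : ∃ z, det (s, δ) z = 1 := by
    obtain ⟨r, r', h⟩ := k3
    exact ⟨(-r', r), by simp only [det]; linarith⟩
  have pQ : det ((1, 0) : V) (0, 1) = 1 := by simp [det]
  obtain ⟨zP, hzP⟩ := pP
  obtain ⟨zR, hzR⟩ := pR
  obtain ⟨zS, hzS⟩ := pS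
  rw [← hend] at id1 id2 hRB hSB
  have dPR : det (p, -X) (κ, Y) = δ := by simp only [det]; linear_combination e_p
  have dQS : det ((1, 0) : V) (s, δ) = δ := by simp [det]
  have dPQ : det (p, -X) (1, 0) = X := by simp [det]
  obtain ⟨i, j, hij, hj, hPi, hRj⟩ := on_chain hAy hb hzP hzR id1 hAP hRB (by rw [dPR]; exact hδ)
  obtain ⟨i', j', hij', hj', hQi, hSj⟩ := on_chain hAy hb pQ hzS id2 (by rw [hAQ]; exact hm)
    (by rw [hSB]; exact hm') (by rw [dQS]; exact hδ)
  have id1' := id1
  have id2' := id2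
  rw [← hPi, ← hRj] at id1'
  rw [← hQi, ← hSj] at id2'
  obtain ⟨k, hk, hsol⟩ := sol_of_idx hAy hb hij hj id1'
  obtain ⟨k', hk', hsol'⟩ := sol_of_idx hAy hb hij' hj' id2'
  have hii' : i < i' := by
    by_contra hcon
    push Not at hcon
    rcases hcon.lt_or_eq with h | h
    · have := w_pos hAy hb (l := i' + 1) (m := i + 1) (by omega) (by omega)
      rw [hPi, hQi, det_swap, dPQ] at this
      linarith
    · rw [h, hPi] at hQi
      rw [hQi, det_self] at dPQ
      linarith
  exact ⟨k, k', i, j, i', j', hii', hk, hk', hsol, hsol', A, y, hAy, rfl, hend, hPi, hQi, hRj,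
    hSj⟩

/-- Determinants along a chain do not depend on the starting vectors. -/
lemma det_ch_indep {x y x' y' : V} (h : det x y = 1) (h' : det x' y' = 1) (c : ℕ → ℤ)
    (l m : ℕ) : det (ch x y c l) (ch x y c m) = det (ch x' y' c l) (ch x' y' c m) := by
  have key : ∀ x y : V, ∀ l, ch x y c l =
      (ch (1, 0) (0, 1) c l).1 • x + (ch (1, 0) (0, 1) c l).2 • y ∧ ch x y c (l + 1) =
      (ch (1, 0) (0, 1) c (l + 1)).1 • x + (ch (1, 0) (0, 1) c (l + 1)).2 • y := by
    intro x y l
    induction l with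
    | zero => constructor <;> simp
    | succ l ih =>
      refine ⟨ih.2, ?_⟩
      rw [ch_succ_succ, ih.1, ih.2, ch_succ_succ]
      ext <;> simp <;> ring
  have key2 : ∀ x y : V, det (ch x y c l) (ch x y c m) =
      det (ch (1, 0) (0, 1) c l) (ch (1, 0) (0, 1) c m) * det x y := by
    intro x y
    rw [(key x y l).1, (key x y m).1]
    simp [det]; ring
  rw [key2, key2 x' y', h, h']

/-- The datum is determined by the indices. -/
lemma real_unique {n a : ℕ} {q q' : Datum} (hq : q.IsFor n a) (hq' : q'.IsFor n a)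
    {b : List ℕ} {i j i' j' : ℕ} {A y A' y' : V} (h : Real q b i j i' j' A y)
    (h' : Real q' b i j i' j' A' y') : q = q' := by
  have D := det_ch_indep h.Ay h'.Ay (fn b)
  have d1 := D (i + 1) (i' + 1)
  have d2 := D (i' + 1) (j + 1)
  have d3 := D (i' + 1) (j' + 1)
  have d4 := D 0 (i' + 1)
  have d5 := D (j' + 1) (b.length + 1)
  have d6 := D (j + 1) (i' + 2)
  have d7 := D (i' + 1) (i' + 2)
  rw [h.hP, h.hQ, h'.hP, h'.hQ] at d1
  rw [h.hQ, h.hR, h'.hQ, h'.hR] at d2
  rw [h.hQ, h.hS, h'.hQ, h'.hS] at d3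
  rw [ch_zero, ch_zero, h.hQ, h'.hQ, h.hA, h'.hA] at d4
  rw [h.hS, h.hB, h'.hS, h'.hB] at d5
  have o1 := det_ch_succ A y (fn b) h.Ay (i' + 1)
  have o2 := det_ch_succ A' y' (fn b) h'.Ay (i' + 1)
  rw [h.hQ] at o1
  rw [h'.hQ] at o2
  rw [h.hR, h'.hR] at d6
  simp only [det] at d1 d2 d3 d4 d5 d6 o1 o2
  have hX : q.X = q'.X := by linarith
  have hY : q.Y = q'.Y := by linarith
  have hδ : q.δ = q'.δ := by linarith
  have hm : q.m = q'.m := by linarith
  have t1 := hq.eq_t
  have t2 := hq'.eq_t
  have hm' : q.m' = q'.m' := by linarith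
  have hκ : q.κ = q'.κ := by
    have e1 : (ch A y (fn b) (i' + 1 + 1)).2 = 1 := by linarith
    have e2 : (ch A' y' (fn b) (i' + 1 + 1)).2 = 1 := by linarith
    have e3 : ch A y (fn b) (i' + 2) = ch A y (fn b) (i' + 1 + 1) := rfl
    have e4 : ch A' y' (fn b) (i' + 2) = ch A' y' (fn b) (i' + 1 + 1) := rfl
    rw [e3, e4, e1, e2, ← hY] at d6
    have e5 : q.Y ∣ q.κ - q'.κ := by
      refine ⟨(ch A y (fn b) (i' + 1 + 1)).1 - (ch A' y' (fn b) (i' + 1 + 1)).1, ?_⟩
      linear_combination d6
    have e6 : q.κ - q'.κ = 0 := by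
      apply Int.eq_zero_of_abs_lt_dvd e5
      have := hq.κ_nonneg
      have := hq'.κ_nonneg
      have := hq.κ_lt
      have := hq'.κ_lt
      rw [abs_lt]
      constructor <;> linarith
    linarith
  have hp : q.p = q'.p := by
    have e1 := hq.eq_p
    have e2 := hq'.eq_p
    rw [← hX, ← hY, ← hδ, ← hκ, ← e1] at e2
    exact (mul_right_cancel₀ hq.Y_pos.ne' e2).symm
  have hs : q.s = q'.s := by
    have e1 := hq.eq_s
    have e2 := hq'.eq_s
    rw [← hX, ← hY, ← hδ, ← hκ, ← e1] at e2
    exact (mul_right_cancel₀ hq.Y_pos.ne' e2).symm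
  have ht : q.t = q'.t := by
    rw [← hδ, ← hm, ← hm', ← hs, ← t1] at t2
    exact (mul_left_cancel₀ hq.δ_pos.ne' t2).symm
  ext <;> assumption


/-! ### The theorem -/

lemma ind_sum_ext {i j i' j' : ℕ} (hij : i ≤ j) (hij' : i' ≤ j')
    (h : ∀ l, ind i l + ind j l = ind i' l + ind j' l) : i = i' ∧ j = j' := by
  have h1 := h i
  have h3 := h i'
  have e1 : i = i' := by
    rcases lt_trichotomy i i' with h5 | h5 | h5
    · exfalso
      unfold ind at h1
      rw [if_pos rfl, if_neg (by omega), if_neg (by omega)] at h1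
      split_ifs at h1 <;> omega
    · exact h5
    · exfalso
      unfold ind at h3
      rw [if_neg (by omega), if_neg (by omega), if_pos rfl] at h3
      split_ifs at h3 <;> omega
  refine ⟨e1, ?_⟩
  subst e1
  have h2 := h j
  unfold ind at h2
  by_contra hcon
  rw [if_pos (rfl : j = j), if_neg (by omega)] at h2
  omega

lemma Sol.idx_eq {b k : List ℕ} {i j i' j' : ℕ} (h : Sol b k i j) (h' : Sol b k i' j') :
    i = i' ∧ j = j' := by
  apply ind_sum_ext h.hij h'.hij
  intro l
  have := h.fnb l
  have := h'.fnb l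
  linarith

lemma mem_data_iff {n a : ℕ} (h1 : a < n) {b : List ℕ}
    (hb : ∀ c ∈ b, 2 ≤ c) (hbj : hj b = (n : ℚ) / ((n : ℚ) - a)) (k : List ℕ) :
    k ∈ FillingData n a ↔ ∃ i j, List.Forall₂ (· ≤ ·) k b ∧ Sol b k i j := by
  have hbne : b ≠ [] := by
    rintro rfl
    rw [hj] at hbj
    have h2 : (0 : ℚ) < (n : ℚ) - a := by
      have : (a : ℚ) < n := by exact_mod_cast h1
      linarith
    have h3 : (0 : ℚ) < n := by
      have : 0 < n := by omega
      exact_mod_cast this
    have : (0 : ℚ) < (n : ℚ) / ((n : ℚ) - a) := by positivity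
    linarith
  constructor
  · rintro ⟨b', hb', hbj', hf, hadm, hz, hs⟩
    have : b' = b := hj_inj hb' hb (by rw [hbj', hbj])
    subst this
    have hkne : k ≠ [] := by
      rintro rfl
      exact hbne (List.forall₂_nil_left_iff.1 hf)
    obtain ⟨i, j, hsol⟩ := sol_exists hf hs ((za_iff k).2 ⟨hkne, hadm, hz⟩)
    exact ⟨i, j, hf, hsol⟩
  · rintro ⟨i, j, hf, hsol⟩
    obtain ⟨_, h3, h4⟩ := (za_iff k).1 hsol.za
    exact ⟨b, hb, hbj, hf, h3, h4, hsol.sum⟩

lemma exists_list {n a : ℕ} (h0 : 0 < a) (h1 : a < n) (hc : Nat.Coprime a n) :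
    ∃ b : List ℕ, (∀ c ∈ b, 2 ≤ c) ∧ hj b = (n : ℚ) / ((n : ℚ) - a) := by
  have hco : Nat.Coprime (n - a) n := by
    rw [Nat.coprime_self_sub_left h1.le]
    exact hc
  obtain ⟨b, hb, hbj⟩ := exists_hj (n - a) n (by omega) (by omega) hco
  refine ⟨b, hb, ?_⟩
  rw [hbj, Nat.cast_sub h1.le]

/-- uniqueness of the datum -/
theorem datum_unique {n a : ℕ} (h0 : 0 < a) (h1 : a < n) (hc : Nat.Coprime a n) {q q' : Datum}
    (hq : q.IsFor n a) (hq' : q'.IsFor n a) : q = q' := by
  obtain ⟨b, hb, hbj⟩ := exists_list h0 h1 hc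
  obtain ⟨hn, ha⟩ := num_of_hj hb h0 h1 hc hbj
  obtain ⟨l₁, l₂, i₁, j₁, i₂, j₂, hlt, -, -, g₁, g₂, A, y, hreal⟩ :=
    sols_of_datum q hq hb hn ha (by omega)
  obtain ⟨l₁', l₂', i₁', j₁', i₂', j₂', hlt', -, -, g₁', g₂', A', y', hreal'⟩ :=
    sols_of_datum q' hq' hb hn ha (by omega)
  -- the indices agree
  have hne12 : l₁ ≠ l₂ := by
    rintro rfl
    have := (g₁.idx_eq g₂).1
    omega
  have hne12' : l₁' ≠ l₂' := by
    rintro rfl
    have := (g₁'.idx_eq g₂').1
    omega
  have hidx : i₁' = i₁ ∧ j₁' = j₁ ∧ i₂' = i₂ ∧ j₂' = j₂ := by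
    rcases at_most_two hb g₁ g₂ g₁' with h | h | h
    · exact absurd h hne12
    · subst h
      obtain ⟨e1, e2⟩ := g₁.idx_eq g₁'
      rcases at_most_two hb g₁ g₂ g₂' with h | h | h
      · exact absurd h hne12
      · exact absurd h hne12'
      · subst h
        obtain ⟨e3, e4⟩ := g₂.idx_eq g₂'
        exact ⟨e1.symm, e2.symm, e3.symm, e4.symm⟩
    · subst h
      obtain ⟨e1, e2⟩ := g₂.idx_eq g₁'
      rcases at_most_two hb g₁ g₂ g₂' with h | h | h
      · exact absurd h hne12
      · subst h
        obtain ⟨e3, e4⟩ := g₁.idx_eq g₂'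
        omega
      · exact absurd h hne12'
  obtain ⟨e1, e2, e3, e4⟩ := hidx
  subst e1 e2 e3 e4
  exact real_unique hq hq' hreal hreal'

/-- **Classification**, with the uniqueness of the datum. -/
theorem main {n a : ℕ} (h0 : 0 < a) (h1 : a < n) (hc : Nat.Coprime a n) :
    (ExactlyTwo n a ↔ ¬ a ^ 2 ≡ 1 [MOD n] ∧ ∃ q : Datum, q.IsFor n a) ∧
      ∀ q q' : Datum, q.IsFor n a → q'.IsFor n a → q = q' := by
  refine ⟨?_, fun q q' hq hq' => datum_unique h0 h1 hc hq hq'⟩
  obtain ⟨b, hb, hbj⟩ := exists_list h0 h1 hc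
  obtain ⟨hn, ha⟩ := num_of_hj hb h0 h1 hc hbj
  have hmem := mem_data_iff h1 hb hbj
  constructor
  · rintro ⟨k₁, hk₁, k₂, hk₂, hne, hall⟩
    obtain ⟨i, j, hf₁, hs₁⟩ := (hmem k₁).1 hk₁
    obtain ⟨i', j', hf₂, hs₂⟩ := (hmem k₂).1 hk₂
    have hkk : k₁ ≠ k₂ := fun h => hne (Or.inl h.symm)
    have hnsq : ¬ a ^ 2 ≡ 1 [MOD n] := by
      intro hsq
      have hrev := palindrome hb h0 h1 hc hbj hsq
      -- the reversed tuples are solutions, too
      have hR : ∀ k i j, List.Forall₂ (· ≤ ·) k b → Sol b k i j →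
          ∃ i' j', Sol b k.reverse i' j' := by
        intro k i j hf hs
        have hf' : List.Forall₂ (· ≤ ·) k.reverse b := by
          rw [← hrev]; exact List.rel_reverse hf
        exact sol_exists hf' (by rw [List.sum_reverse]; exact hs.sum) hs.za.reverse
      obtain ⟨i₁, j₁, hr₁⟩ := hR k₁ i j hf₁ hs₁
      obtain ⟨i₂, j₂, hr₂⟩ := hR k₂ i' j' hf₂ hs₂
      have q1 : k₁.reverse = k₁ := by
        rcases at_most_two hb hs₁ hs₂ hr₁ with h | h | h
        · exact absurd h hkk
        · exact h.symm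
        · exact absurd (Or.inr ⟨hsq, h⟩) hne
      have q2 : k₂.reverse = k₂ := by
        rcases at_most_two hb hs₁ hs₂ hr₂ with h | h | h
        · exact absurd h hkk
        · exfalso
          apply hne
          refine Or.inr ⟨hsq, ?_⟩
          rw [h, List.reverse_reverse]
        · exact h.symm
      -- indices of palindromic solutions
      have hidx : ∀ k i j, Sol b k i j → k.reverse = k → i + j + 1 = b.length := by
        intro k i j hs hkr
        have hfr : ∀ z : List ℕ, z.reverse = z → ∀ l, l < z.length →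
            fn z (z.length - 1 - l) = fn z l := by
          intro z hzr l hl
          have e1 : z.getD (z.length - 1 - l) 0 = z[z.length - 1 - l]'(by omega) := by
            simp [List.getD, show z.length - 1 - l < z.length by omega]
          have e2 : z.getD l 0 = z[l] := by simp [List.getD, hl]
          rw [fn, fn, e1, e2]
          have e3 : z.reverse[l]'(by simpa using hl) = z[z.length - 1 - l]'(by omega) :=
            List.getElem_reverse _
          rw [← e3]
          congr 2
        have hi := hs.hij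
        have hj := hs.hj
        have hlen := hs.len
        have hsym : ∀ l, l < b.length →
            ind i (b.length - 1 - l) + ind j (b.length - 1 - l) = ind i l + ind j l := by
          intro l hl
          have a1 := hs.fnb l
          have a2 := hs.fnb (b.length - 1 - l)
          have a3 := hfr b hrev l hl
          have a4 := hfr k hkr l (by rw [hlen]; exact hl)
          rw [hlen] at a4
          linarith
        have s1 := hsym i (by omega)
        have s2 := hsym j hj
        unfold ind at s1 s2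
        split_ifs at s1 s2 <;> omega
      have t1 := hidx k₁ i j hs₁ q1
      have t2 := hidx k₂ i' j' hs₂ q2
      have hii := hs₁.ne hb hs₂ hkk
      rcases Nat.lt_or_gt_of_ne hii with h | h
      · have := hs₁.lt hb hs₂ h
        omega
      · have := hs₂.lt hb hs₁ h
        omega
    refine ⟨hnsq, ?_⟩
    rcases Nat.lt_or_gt_of_ne (hs₁.ne hb hs₂ hkk) with h | h
    · exact exists_datum hb hn ha hs₁ hs₂ h
    · exact exists_datum hb hn ha hs₂ hs₁ h
  · rintro ⟨hnsq, q, hq⟩
    obtain ⟨k, k', i, j, i', j', hlt, hf, hf', hs, hs', -⟩ :=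
      sols_of_datum q hq hb hn ha (by omega)
    refine ⟨k, (hmem k).2 ⟨i, j, hf, hs⟩, k', (hmem k').2 ⟨i', j', hf', hs'⟩, ?_, ?_⟩
    · rintro (h | ⟨h, -⟩)
      · subst h
        have := (hs.idx_eq hs').1
        omega
      · exact hnsq h
    · intro l hl
      obtain ⟨i₁, j₁, -, hs₁⟩ := (hmem l).1 hl
      rcases at_most_two hb hs hs' hs₁ with h | h | h
      · subst h
        have := (hs.idx_eq hs').1
        omega
      · exact Or.inl (Or.inl h.symm)
      · exact Or.inr (Or.inl h.symm)

end Pool.Agent.Lib.MP_7470a2_gt
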