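import Pool.Agent.Lib.MP_7470a2_gt.Rev

/-!
# Solutions given by vectors lie on the chain; existence of continued fractions
-/

namespace Pool.Agent.Lib.MP_7470a2_gt

/-- Existence of the continued fraction expansion. -/
lemma exists_hj (q : ℕ) : ∀ n : ℕ, 0 < q → q < n → Nat.Coprime q n →
    ∃ b : List ℕ, (∀ c ∈ b, 2 ≤ c) ∧ hj b = (n : ℚ) / q := by
  induction q using Nat.strong_induction_on with
  | _ q ih =>
  intro n hq hqn hc
  rcases Nat.lt_or_ge 1 q with h1 | h1
  · -- q ≥ 2
    set c := n / q + 1 with hcdef
    have hmod : 0 < n % q := by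
      rcases Nat.eq_zero_or_pos (n % q) with h | h
      · exfalso
        have : q ∣ n := Nat.dvd_of_mod_eq_zero h
        have h2 := Nat.Coprime.eq_one_of_dvd hc this
        omega
      · exact h
    have hlt : n % q < q := Nat.mod_lt _ hq
    have hdm := Nat.div_add_mod n q
    set r := q - n % q with hr
    have hcq : c * q = n + r := by
      rw [hcdef, hr]
      have : (n / q + 1) * q = q * (n / q) + q := by ring
      omega
    have hr1 : 0 < r := by omega
    have hr2 : r < q := by omega
    have hco : Nat.Coprime r q := by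
      have h3 : Nat.Coprime (n + r) q → Nat.Coprime r q := by
        intro _
        have h4 : Nat.gcd r q ∣ 1 := by
          rw [← Nat.coprime_iff_gcd_eq_one.1 hc]
          apply Nat.dvd_gcd (Nat.gcd_dvd_right _ _)
          have h5 : Nat.gcd r q ∣ n + r := by
            rw [← hcq]; exact (Nat.gcd_dvd_right r q).mul_left c
          exact (Nat.dvd_add_left (Nat.gcd_dvd_left r q)).1 h5
        exact Nat.dvd_one.1 h4
      have h4 : Nat.gcd r q ∣ 1 := by
        rw [← Nat.coprime_iff_gcd_eq_one.1 hc]
        apply Nat.dvd_gcd (Nat.gcd_dvd_right _ _)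
        have h5 : Nat.gcd r q ∣ n + r := by
          rw [← hcq]; exact (Nat.gcd_dvd_right r q).mul_left c
        exact (Nat.dvd_add_left (Nat.gcd_dvd_left r q)).1 h5
      exact Nat.dvd_one.1 h4
    obtain ⟨l, hl, hl2⟩ := ih r hr2 q hr1 hr2 hco
    refine ⟨c :: l, ?_, ?_⟩
    · intro d hd
      rcases List.mem_cons.1 hd with h | h
      · rw [h, hcdef]
        have : 1 ≤ n / q := Nat.div_pos hqn.le hq
        omega
      · exact hl d h
    · rw [hj, hl2]
      have hq' : (q : ℚ) ≠ 0 := by exact_mod_cast hq.ne'
      have hr' : (r : ℚ) ≠ 0 := by exact_mod_cast hr1.ne'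
      have : (c : ℚ) * q = n + r := by exact_mod_cast hcq
      field_simp
      linarith
  · have hq1 : q = 1 := by omega
    subst hq1
    refine ⟨[n], ?_, ?_⟩
    · intro d hd; simp at hd; omega
    · simp [hj]

/-- Stern–Brocot parents. -/
lemma exists_parents {α β : ℤ} (hα : 0 < α) (hβ : 0 < β) (h : IsCoprime α β) :
    ∃ p₁ q₁ p₂ q₂ : ℤ, 0 ≤ p₁ ∧ 0 ≤ q₁ ∧ 0 ≤ p₂ ∧ 0 ≤ q₂ ∧ p₁ + p₂ = α ∧ q₁ + q₂ = β ∧
      p₁ * q₂ - q₁ * p₂ = 1 := by
  obtain ⟨r, s, hrs⟩ := h
  set q₂ := (r - 1) % β + 1 with hq₂
  have h1 : 0 ≤ (r - 1) % β := Int.emod_nonneg _ hβ.ne'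
  have h2 : (r - 1) % β < β := Int.emod_lt_of_pos _ hβ
  have h3 : (r - 1) % β = r - 1 - β * ((r - 1) / β) := Int.emod_def _ _
  set p₂ := -(s + α * ((r - 1) / β)) with hp₂
  have key : α * q₂ - β * p₂ = 1 := by
    rw [hq₂, hp₂, h3]; linear_combination hrs
  have hp₂0 : 0 ≤ p₂ := by
    have : 0 ≤ β * p₂ := by nlinarith
    by_contra hcon
    push Not at hcon
    nlinarith
  have hp₂1 : p₂ ≤ α := by
    by_contra hcon
    push Not at hcon
    have : α * q₂ ≤ α * β := by
      apply mul_le_mul_of_nonneg_left _ hα.le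
      omega
    nlinarith
  refine ⟨α - p₂, β - q₂, p₂, q₂, by linarith, by omega, hp₂0, by omega, by ring, by ring, ?_⟩
  linear_combination key

lemma expand_in {e f : V} (h : det e f = 1) (u : V) : u = det u f • e + det e u • f := by
  ext
  · simp only [det, Prod.fst_add, Prod.smul_fst, smul_eq_mul] at h ⊢
    linear_combination (-u.1) * h
  · simp only [det, Prod.snd_add, Prod.smul_snd, smul_eq_mul] at h ⊢
    linear_combination (-u.2) * h

/-- A primitive vector in the interior of a unimodular cone has parents in the cone. -/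
lemma parents_vec {e f u z₀ : V} (h : det e f = 1) (hu : det u z₀ = 1) (h1 : 0 < det u f)
    (h2 : 0 < det e u) : ∃ x z : V, u = x + z ∧ det u z = 1 ∧ det x u = 1 ∧
      (∃ p q : ℤ, 0 ≤ p ∧ 0 ≤ q ∧ x = p • e + q • f) ∧
      (∃ p q : ℤ, 0 ≤ p ∧ 0 ≤ q ∧ z = p • e + q • f) := by
  have hex := expand_in h u
  have hco : IsCoprime (det u f) (det e u) := by
    refine ⟨det e z₀, det f z₀, ?_⟩
    have : det u z₀ = det e z₀ * det u f + det f z₀ * det e u := by
      conv_lhs => rw [hex]
      simp [det]; ring
    linarith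
  obtain ⟨p₁, q₁, p₂, q₂, a1, a2, a3, a4, a5, a6, a7⟩ := exists_parents h1 h2 hco
  refine ⟨p₁ • e + q₁ • f, p₂ • e + q₂ • f, ?_, ?_, ?_, ⟨p₁, q₁, a1, a2, rfl⟩,
    ⟨p₂, q₂, a3, a4, rfl⟩⟩
  · rw [hex, ← a5, ← a6]
    ext <;> simp <;> ring
  · rw [hex, ← a5, ← a6]
    have : det ((p₁ + p₂) • e + (q₁ + q₂) • f) (p₂ • e + q₂ • f) =
        (p₁ * q₂ - q₁ * p₂) * det e f := by
      simp [det]; ring
    rw [this, a7, h]; ring
  · rw [hex, ← a5, ← a6]
    have : det (p₁ • e + q₁ • f) ((p₁ + p₂) • e + (q₁ + q₂) • f) =
        (p₁ * q₂ - q₁ * p₂) * det e f := by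
      simp [det]; ring
    rw [this, a7, h]; ring

section

variable {x y : V} (hxy : det x y = 1) {b : List ℕ} (hb : ∀ c ∈ b, 2 ≤ c)

include hxy hb

lemma w_nonneg {l m : ℕ} (h1 : l ≤ m) (h2 : m ≤ b.length + 1) :
    0 ≤ det (ch x y (fn b) l) (ch x y (fn b) m) := by
  rcases h1.lt_or_eq with h | h
  · exact (w_pos hxy hb h h2).le
  · rw [h, det_self]

omit hxy hb in
/-- Locating a vector of the open cone between the first and the last vector. -/
lemma locate (u : V) (h1 : 0 < det x u) (h2 : 0 < det u (ch x y (fn b) (b.length + 1))) :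
    ∃ l, l ≤ b.length ∧ 0 ≤ det (ch x y (fn b) l) u ∧ 0 < det u (ch x y (fn b) (l + 1)) := by
  by_contra hcon
  push Not at hcon
  have : ∀ l, l ≤ b.length + 1 → 0 ≤ det (ch x y (fn b) l) u := by
    intro l
    induction l with
    | zero => intro _; simpa using h1.le
    | succ l ih =>
      intro hl
      have h3 := hcon l (by omega) (ih (by omega))
      rw [det_swap] at h3
      linarith
  have h3 := this (b.length + 1) le_rfl
  rw [det_swap] at h3
  linarith

/-- **Solutions lie on the chain.** -/
lemma on_chain {u v u₀ v₀ : V} (hu₀ : det u u₀ = 1) (hv₀ : det v v₀ = 1)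
    (hid : Id2 x (ch x y (fn b) (b.length + 1)) u v) (hAu : 0 < det x u)
    (hvB : 0 < det v (ch x y (fn b) (b.length + 1))) (huv : 0 < det u v) :
    ∃ i j, i ≤ j ∧ j < b.length ∧ ch x y (fn b) (i + 1) = u ∧ ch x y (fn b) (j + 1) = v := by
  set B := ch x y (fn b) (b.length + 1) with hB
  have c1 : det u B = det x u + det v B * det u v := by
    have := congrArg (det u) hid
    rw [det_add_right, det_add_right, det_smul_right, det_smul_right, det_self,
      det_swap u x] at this
    linear_combination this
  have c2 : det x v = det v B + det x u * det u v := by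
    have := congrArg (det v) hid
    rw [det_add_right, det_add_right, det_smul_right, det_smul_right, det_self,
      det_swap v x, det_swap v u] at this
    linear_combination -this
  have huB : 0 < det u B := by rw [c1]; positivity
  have hxv : 0 < det x v := by rw [c2]; positivity
  have hx : ∀ l, l ≤ b.length + 1 → 0 ≤ det x (ch x y (fn b) l) := by
    intro l hl
    simpa using w_nonneg hxy hb (l := 0) (m := l) (by omega) hl
  have hB' : ∀ l, l ≤ b.length + 1 → 0 ≤ det (ch x y (fn b) l) B := by
    intro l hl
    exact w_nonneg hxy hb hl le_rfl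
  -- a parent `z` of `u` cannot lie between `u` and `v`
  have F1 : ∀ x' z : V, u = x' + z → det u z = 1 → 0 ≤ det x x' → 0 ≤ det z v → False := by
    intro x' z h1 h2 h3 h4
    have f1 : det u v * (det x z - det x u * det u z) =
        det z v * det x u + det u z * det v B := by
      have := plucker x u z v
      linear_combination -this + det u z * c2
    have f2 : det x u = det x x' + det x z := by rw [h1, det_add_right]
    rw [h2] at f1
    have f3 : 0 < det u v * (det x z - det x u * 1) := by rw [f1]; positivity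
    have f4 : 0 < det x z - det x u * 1 := (mul_pos_iff_of_pos_left huv).1 f3
    linarith
  have F2 : ∀ x'' z'' : V, v = x'' + z'' → det x'' v = 1 → 0 ≤ det z'' B → 0 ≤ det u x'' →
      False := by
    intro x' z h1 h2 h3 h4
    have f1 : det u v * (det x' B - det v B * det x' v) =
        det x' v * det x u + det u x' * det v B := by
      have := plucker u x' v B
      linear_combination -this + det x' v * c1
    have f2 : det v B = det x' B + det z B := by
      conv_lhs => rw [h1]
      simp [det]; ring
    rw [h2] at f1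
    have f3 : 0 < det u v * (det x' B - det v B * 1) := by rw [f1]; positivity
    have f4 : 0 < det x' B - det v B * 1 := (mul_pos_iff_of_pos_left huv).1 f3
    linarith
  -- `u` lies on the chain
  have hu : ∃ l, l < b.length + 1 ∧ ch x y (fn b) l = u := by
    obtain ⟨l, hl, h1, h2⟩ := locate u hAu huB
    have h11 := det_ch_succ x y (fn b) hxy l
    rcases h1.lt_or_eq with h3 | h3
    · exfalso
      obtain ⟨x', z, g1, g2, g3, ⟨p, q, g4, g5, g6⟩, ⟨p', q', g7, g8, g9⟩⟩ :=
        parents_vec h11 hu₀ h2 h3
      have hxx' : 0 ≤ det x x' := by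
        rw [g6, det_add_right, det_smul_right, det_smul_right]
        have := hx l (by omega)
        have := hx (l + 1) (by omega)
        positivity
      have hzB : 0 ≤ det z B := by
        have e1 : det z B = p' * det (ch x y (fn b) l) B + q' * det (ch x y (fn b) (l + 1)) B := by
          rw [g9]; simp [det]; ring
        rw [e1]
        have := hB' l (by omega)
        have := hB' (l + 1) (by omega)
        positivity
      rcases lt_or_ge (det z v) 0 with h5 | h5
      · -- `v` lies between `u` and `z`
        have h6 : 0 < det v z := by rw [det_swap]; linarith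
        obtain ⟨x'', z'', k1, k2, k3, ⟨r, s, k4, k5, k6⟩, ⟨r', s', k7, k8, k9⟩⟩ :=
          parents_vec g2 hv₀ h6 huv
        apply F2 x'' z'' k1 k3
        · have e1 : det z'' B = r' * det u B + s' * det z B := by
            rw [k9]; simp [det]; ring
          rw [e1]; positivity
        · have e1 : det u x'' = s := by
            rw [k6, det_add_right, det_smul_right, det_smul_right, det_self, g2]; ring
          rw [e1]; exact k5
      · exact F1 x' z g1 g2 hxx' h5
    · refine ⟨l, by omega, ?_⟩
      have h4 := expand_in h11 u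
      rw [← h3, zero_smul, add_zero] at h4
      have h5 : det u (ch x y (fn b) (l + 1)) * det (ch x y (fn b) l) u₀ = 1 := by
        rw [← hu₀]
        conv_rhs => rw [h4]
        simp [det]; ring
      have h6 : det u (ch x y (fn b) (l + 1)) = 1 :=
        Int.eq_one_of_dvd_one h2.le ⟨_, h5.symm⟩
      rw [h6, one_smul] at h4
      exact h4.symm
  obtain ⟨l₁, hl₁, hl₁u⟩ := hu
  have hv : ∃ l, l < b.length + 1 ∧ ch x y (fn b) l = v := by
    obtain ⟨l, hl, h1, h2⟩ := locate v hxv hvB
    have h11 := det_ch_succ x y (fn b) hxy l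
    rcases h1.lt_or_eq with h3 | h3
    · exfalso
      obtain ⟨x'', z'', g1, g2, g3, ⟨p, q, g4, g5, g6⟩, ⟨p', q', g7, g8, g9⟩⟩ :=
        parents_vec h11 hv₀ h2 h3
      have hzB : 0 ≤ det z'' B := by
        have e1 : det z'' B = p' * det (ch x y (fn b) l) B +
            q' * det (ch x y (fn b) (l + 1)) B := by
          rw [g9]; simp [det]; ring
        rw [e1]
        have := hB' l (by omega)
        have := hB' (l + 1) (by omega)
        positivity
      apply F2 x'' z'' g1 g3 hzB
      -- `u` is a vector of the chain before `v`, so it is before `w_l`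
      have hl₁l : l₁ ≤ l := by
        by_contra hcon
        push Not at hcon
        have h5 : 0 ≤ det (ch x y (fn b) (l + 1)) u := by
          rw [← hl₁u]
          exact w_nonneg hxy hb (by omega) (by omega)
        -- contradiction: `det u v ≤ 0`
        have h6 := plucker x v (ch x y (fn b) (l + 1)) u
        have h7 : 0 < det x (ch x y (fn b) (l + 1)) := by
          simpa using w_pos hxy hb (l := 0) (m := l + 1) (by omega) (by omega)
        have h8 : det v u = - det u v := det_swap _ _
        rw [h8] at h6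
        have h9 : det x v * det (ch x y (fn b) (l + 1)) u + det x (ch x y (fn b) (l + 1)) * det u v +
            det x u * det v (ch x y (fn b) (l + 1)) = 0 := by linear_combination h6
        have h10 : 0 < det x v * det (ch x y (fn b) (l + 1)) u +
            det x (ch x y (fn b) (l + 1)) * det u v +
            det x u * det v (ch x y (fn b) (l + 1)) := by positivity
        linarith
      rw [g6, ← hl₁u, det_add_right, det_smul_right, det_smul_right]
      have e1 := w_nonneg hxy hb (l := l₁) (m := l) hl₁l (by omega)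
      have e2 := w_nonneg hxy hb (l := l₁) (m := l + 1) (by omega) (by omega)
      positivity
    · refine ⟨l, by omega, ?_⟩
      have h4 := expand_in h11 v
      rw [← h3, zero_smul, add_zero] at h4
      have h5 : det v (ch x y (fn b) (l + 1)) * det (ch x y (fn b) l) v₀ = 1 := by
        rw [← hv₀]
        conv_rhs => rw [h4]
        simp [det]; ring
      have h6 : det v (ch x y (fn b) (l + 1)) = 1 :=
        Int.eq_one_of_dvd_one h2.le ⟨_, h5.symm⟩
      rw [h6, one_smul] at h4
      exact h4.symm
  obtain ⟨l₂, hl₂, hl₂v⟩ := hv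
  have p1 : l₁ ≠ 0 := by
    rintro rfl
    rw [ch_zero] at hl₁u
    rw [hl₁u, det_self] at hAu
    exact lt_irrefl _ hAu
  have p2 : l₂ ≠ 0 := by
    rintro rfl
    rw [ch_zero] at hl₂v
    rw [hl₂v, det_self] at hxv
    exact lt_irrefl _ hxv
  have p3 : l₁ ≤ l₂ := by
    by_contra hcon
    push Not at hcon
    have := w_pos hxy hb (l := l₂) (m := l₁) hcon (by omega)
    rw [hl₁u, hl₂v, det_swap] at this
    linarith
  refine ⟨l₁ - 1, l₂ - 1, by omega, by omega, ?_, ?_⟩
  · rw [show l₁ - 1 + 1 = l₁ by omega]; exact hl₁u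
  · rw [show l₂ - 1 + 1 = l₂ by omega]; exact hl₂v

end

end Pool.Agent.Lib.MP_7470a2_gt
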