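import Pool.Agent.Lib.MP_7470a2_gt.Alg

/-!
# There are at most two solutions
-/

namespace Pool.Agent.Lib.MP_7470a2_gt

/-- `k` is obtained from `b` by lowering the entries with index `i` and `j`, and is an admissible
zero continued fraction. -/
structure Sol (b k : List ℕ) (i j : ℕ) : Prop where
  hij : i ≤ j
  hj : j < b.length
  len : k.length = b.length
  sum : b.sum = k.sum + 2
  fnb : ∀ l, fn b l = fn k l + ind i l + ind j l
  za : ZA k

lemma sol_exists {b k : List ℕ} (h : List.Forall₂ (· ≤ ·) k b) (hs : b.sum = k.sum + 2)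
    (hz : ZA k) : ∃ i j, Sol b k i j := by
  obtain ⟨i, j, h1, h2, h3⟩ := exists_indices h hs
  exact ⟨i, j, h1, h2, h.length_eq, hs, h3, hz⟩

section

variable {x y : V} (hxy : det x y = 1) {b : List ℕ} (hb : ∀ c ∈ b, 2 ≤ c)

include hxy hb

lemma w_pos {l m : ℕ} (h1 : l < m) (h2 : m ≤ b.length + 1) :
    0 < det (ch x y (fn b) l) (ch x y (fn b) m) :=
  det_ch_pos x y _ hxy (fun _ hl => fn_ge hb hl) h1 h2

lemma Sol.id2 {k : List ℕ} {i j : ℕ} (h : Sol b k i j) :
    Id2 x (ch x y (fn b) (b.length + 1)) (ch x y (fn b) (i + 1)) (ch x y (fn b) (j + 1)) :=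
  (za_iff_id2 x y hxy k b hb h.len h.hij h.hj h.fnb).1 h.za

lemma Sol.lt_of_lt {k k' : List ℕ} {i j i' j' : ℕ} (h : Sol b k i j) (h' : Sol b k' i' j')
    (hi : i < i') :
    Quad (ch x y (fn b) (i + 1)) (ch x y (fn b) (i' + 1)) (ch x y (fn b) (j + 1))
      (ch x y (fn b) (j' + 1)) (det (ch x y (fn b) (i + 1)) (ch x y (fn b) (i' + 1)))
      (det (ch x y (fn b) (i' + 1)) (ch x y (fn b) (j + 1)))
      (det (ch x y (fn b) (i + 1)) (ch x y (fn b) (j + 1))) := by
  have hij := h.hij
  have hj := h.hj
  have hij' := h'.hij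
  have hj' := h'.hj
  have hact := h.za.act_eq h'.za (by rw [h.len, h'.len]) (by have := h.sum; have := h'.sum; omega)
  have hB := h.id2 hxy hb
  have hB' := h'.id2 hxy hb
  -- equality of the double transvections
  have e1 : sg (ch x y (fn b) (i + 1)) (sg (ch x y (fn b) (j + 1))
      (ch x y (fn b) (b.length + 1))) = sg (ch x y (fn b) (i' + 1))
      (sg (ch x y (fn b) (j' + 1)) (ch x y (fn b) (b.length + 1))) := by
    rw [(id2_iff _ _ _ _).1 hB, (id2_iff _ _ _ _).1 hB']
  have e2 : sg (ch x y (fn b) (i + 1)) (sg (ch x y (fn b) (j + 1))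
      (ch x y (fn b) b.length)) = sg (ch x y (fn b) (i' + 1))
      (sg (ch x y (fn b) (j' + 1)) (ch x y (fn b) b.length)) := by
    have h1 := (ch_length k x y).2
    have h2 := (ch_length k' x y).2
    rw [h.len, (ch_two x y hxy k b hij h.fnb b.length).2.2 (by omega)] at h1
    rw [h'.len, (ch_two x y hxy k' b hij' h'.fnb b.length).2.2 (by omega)] at h2
    rw [h1, h2, hact.2]
  have H := sgsg_ext (det_ch_succ x y (fn b) hxy b.length) e2 e1
  set u := ch x y (fn b) (i + 1) with hu
  set v := ch x y (fn b) (j + 1) with hv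
  set u' := ch x y (fn b) (i' + 1) with hu'
  set v' := ch x y (fn b) (j' + 1) with hv'
  set B := ch x y (fn b) (b.length + 1) with hBdef
  have hX : 0 < det u u' := w_pos hxy hb (by omega) (by omega)
  have hd : 0 ≤ det u v := by
    rcases hij.lt_or_eq with h1 | h1
    · exact (w_pos hxy hb (by omega) (by omega)).le
    · rw [hu, hv, h1, det_self]
  have hd' : 0 ≤ det u' v' := by
    rcases hij'.lt_or_eq with h1 | h1
    · exact (w_pos hxy hb (by omega) (by omega)).le
    · rw [hu', hv', h1, det_self]
  have px : ∀ l, l < b.length + 1 → 0 < det x (ch x y (fn b) (l + 1)) := by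
    intro l hl
    have := w_pos hxy hb (l := 0) (m := l + 1) (by omega) (by omega)
    simpa using this
  have pu' : 0 < det x u' := px i' (by omega)
  have pu : 0 < det x u := px i (by omega)
  have pv : 0 < det x v := px j (by omega)
  have pB : 0 < det x B := px b.length (by omega)
  have pvB' : 0 < det v' B := w_pos hxy hb (by omega) (by omega)
  refine quad_of_sgsg H hX ?_ hd hd'
  -- positivity of `det u' v`
  have c1 : det u' (x + B) = det v' B * det u' v' := by
    rw [hB', det_add_right, det_smul_right, det_smul_right, det_self]; ring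
  have c2 : det v (x + B) = - (det x u * det u v) := by
    rw [hB, det_add_right, det_smul_right, det_smul_right, det_self, det_swap v u]; ring
  have c3 : det x (x + B) = det x B := by rw [det_add_right, det_self]; ring
  have c4 := plucker x u' v (x + B)
  rw [c1, c2, c3] at c4
  have c5 : det x B * det u' v =
      det x u' * (det x u * det u v) + det x v * (det v' B * det u' v') := by
    linear_combination c4
  have c6 : 0 ≤ det x B * det u' v := by
    rw [c5]; positivity
  have c7 : 0 ≤ det u' v := by
    by_contra hcon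
    push Not at hcon
    nlinarith
  rcases c7.lt_or_eq with h8 | h8
  · exact h8
  · exfalso
    rw [← h8, mul_zero] at c5
    have h9 : 0 ≤ det x v * (det v' B * det u' v') := by positivity
    have h10 : 0 ≤ det x u' * (det x u * det u v) := by positivity
    have h11 : det x u' * (det x u * det u v) = 0 := by linarith
    have h12 : det u v = 0 := by
      rcases mul_eq_zero.1 h11 with h | h
      · exact absurd h pu'.ne'
      · rcases mul_eq_zero.1 h with h | h
        · exact absurd h pu.ne'
        · exact h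
    rcases hij.lt_or_eq with h1 | h1
    · have : 0 < det u v := w_pos hxy hb (by omega) (by omega)
      linarith
    · have : v = u := by rw [hu, hv, h1]
      rw [this, det_swap] at h8
      linarith

lemma Sol.eq_of_eq {k k' : List ℕ} {i j j' : ℕ} (h : Sol b k i j) (h' : Sol b k' i j') :
    j = j' := by
  have hij := h.hij
  have hj := h.hj
  have hij' := h'.hij
  have hj' := h'.hj
  have hB := h.id2 hxy hb
  have hB' := h'.id2 hxy hb
  set u := ch x y (fn b) (i + 1) with hu
  set v := ch x y (fn b) (j + 1) with hv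
  set v' := ch x y (fn b) (j' + 1) with hv'
  set B := ch x y (fn b) (b.length + 1) with hBdef
  have h1 : det v B • v = det v' B • v' := by
    unfold Id2 at hB hB'
    rw [hB] at hB'
    exact add_left_cancel hB'
  have h2 := congrArg (det v) h1
  rw [det_smul_right, det_smul_right, det_self, mul_zero] at h2
  have pvB' : 0 < det v' B := w_pos hxy hb (by omega) (by omega)
  have h3 : det v v' = 0 := by
    rcases mul_eq_zero.1 h2.symm with h | h
    · exact absurd h pvB'.ne'
    · exact h
  rcases Nat.lt_trichotomy j j' with h4 | h4 | h4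
  · have : 0 < det v v' := w_pos hxy hb (by omega) (by omega)
    linarith
  · exact h4
  · have : 0 < det v' v := w_pos hxy hb (by omega) (by omega)
    rw [det_swap] at this
    linarith

end

lemma Sol.ext {b k k' : List ℕ} {i j : ℕ} (h : Sol b k i j) (h' : Sol b k' i j) : k = k' := by
  apply eq_of_fn (by rw [h.len, h'.len])
  intro l
  have h1 := h.fnb l
  have h2 := h'.fnb l
  linarith

/-- The standard starting vectors. -/
lemma det_std : det ((0, -1) : V) (1, 0) = 1 := by simp [det]

lemma Sol.ne {b k k' : List ℕ} (hb : ∀ c ∈ b, 2 ≤ c) {i j i' j' : ℕ} (h : Sol b k i j)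
    (h' : Sol b k' i' j') (hne : k ≠ k') : i ≠ i' := by
  rintro rfl
  have := h.eq_of_eq det_std hb h'
  subst this
  exact hne (h.ext h')

lemma Sol.lt {b k k' : List ℕ} (hb : ∀ c ∈ b, 2 ≤ c) {i j i' j' : ℕ} (h : Sol b k i j)
    (h' : Sol b k' i' j') (hlt : i < i') : j < j' := by
  have := (h.lt_of_lt det_std hb h' hlt)
  have h1 := this.RS
  have h2 := this.hX
  have h3 := h.hj
  have h4 := h'.hj
  by_contra hcon
  push Not at hcon
  rcases hcon.lt_or_eq with h5 | h5
  · have := w_pos det_std hb (l := j' + 1) (m := j + 1) (by omega) (by omega)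
    rw [det_swap] at this
    linarith
  · rw [h5, det_self] at h1
    linarith

lemma no_three_sols {b k k' k'' : List ℕ} (hb : ∀ c ∈ b, 2 ≤ c) {i j i' j' i'' j'' : ℕ}
    (h : Sol b k i j) (h' : Sol b k' i' j') (h'' : Sol b k'' i'' j'') (h1 : i < i')
    (h2 : i' < i'') : False := by
  have hxy := det_std
  exact no_three_quads (h.lt_of_lt hxy hb h' h1) (h.lt_of_lt hxy hb h'' (by omega))
    (h'.lt_of_lt hxy hb h'' h2) (det_ch_succ _ _ _ hxy _) (det_ch_succ _ _ _ hxy _)
    (det_ch_succ _ _ _ hxy _)

/-- **At most two solutions.** -/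
theorem at_most_two {b k k' k'' : List ℕ} (hb : ∀ c ∈ b, 2 ≤ c) {i j i' j' i'' j'' : ℕ}
    (h : Sol b k i j) (h' : Sol b k' i' j') (h'' : Sol b k'' i'' j'') :
    k = k' ∨ k = k'' ∨ k' = k'' := by
  by_contra hcon
  push Not at hcon
  obtain ⟨n1, n2, n3⟩ := hcon
  have m1 := h.ne hb h' n1
  have m2 := h.ne hb h'' n2
  have m3 := h'.ne hb h'' n3
  rcases Nat.lt_or_gt_of_ne m1 with a | a <;> rcases Nat.lt_or_gt_of_ne m2 with b' | b' <;>
    rcases Nat.lt_or_gt_of_ne m3 with c | c
  · exact no_three_sols hb h h' h'' a c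
  · exact no_three_sols hb h h'' h' b' c
  · omega
  · exact no_three_sols hb h'' h h' b' a
  · exact no_three_sols hb h' h h'' a b'
  · omega
  · exact no_three_sols hb h' h'' h c b'
  · exact no_three_sols hb h'' h' h c a

end Pool.Agent.Lib.MP_7470a2_gt
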