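import Pool.Agent.Lib.MP_7470a2_gt.Pairs

/-!
# Uniqueness of the continued fraction and reversal
-/

namespace Pool.Agent.Lib.MP_7470a2_gt

lemma hj_gt_one {b : List ℕ} (hb : ∀ c ∈ b, 2 ≤ c) (hne : b ≠ []) : 1 < hj b := by
  induction b with
  | nil => exact absurd rfl hne
  | cons c l ih =>
    rw [hj]
    have hc : (2 : ℚ) ≤ c := by exact_mod_cast hb c (by simp)
    rcases eq_or_ne l [] with h1 | h1
    · subst h1
      simp only [hj, inv_zero, sub_zero]
      linarith
    · have h2 := ih (fun d hd => hb d (List.mem_cons_of_mem _ hd)) h1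
      have h3 : (hj l)⁻¹ < 1 := inv_lt_one_of_one_lt₀ h2
      linarith

lemma hj_inv_mem {b : List ℕ} (hb : ∀ c ∈ b, 2 ≤ c) : 0 ≤ (hj b)⁻¹ ∧ (hj b)⁻¹ < 1 := by
  rcases eq_or_ne b [] with h1 | h1
  · subst h1; simp [hj]
  · have h2 := hj_gt_one hb h1
    exact ⟨by positivity, inv_lt_one_of_one_lt₀ h2⟩

lemma hj_inj {b b' : List ℕ} (hb : ∀ c ∈ b, 2 ≤ c) (hb' : ∀ c ∈ b', 2 ≤ c)
    (h : hj b = hj b') : b = b' := by
  induction b generalizing b' with
  | nil =>
    by_contra hcon
    have h1 := hj_gt_one hb' (fun h => hcon h.symm)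
    rw [← h, hj] at h1
    linarith
  | cons c l ih =>
    cases b' with
    | nil =>
      have h1 := hj_gt_one hb (by simp)
      rw [h, hj] at h1
      linarith
    | cons c' l' =>
      have hl : ∀ d ∈ l, 2 ≤ d := fun d hd => hb d (List.mem_cons_of_mem _ hd)
      have hl' : ∀ d ∈ l', 2 ≤ d := fun d hd => hb' d (List.mem_cons_of_mem _ hd)
      rw [hj, hj] at h
      obtain ⟨p1, p2⟩ := hj_inv_mem hl
      obtain ⟨q1, q2⟩ := hj_inv_mem hl'
      have h1 : (c : ℚ) < c' + 1 := by linarith
      have h2 : (c' : ℚ) < c + 1 := by linarith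
      have h3 : c < c' + 1 := by exact_mod_cast h1
      have h4 : c' < c + 1 := by exact_mod_cast h2
      have h5 : c = c' := by omega
      subst h5
      have h6 : (hj l)⁻¹ = (hj l')⁻¹ := by linarith
      rw [ih hl hl' (inv_injective h6)]

lemma act_add (l : List ℕ) (z z' : V) : act l (z + z') = act l z + act l z' := by
  induction l with
  | nil => rfl
  | cons c l ih =>
    rw [act_cons, ih, act_cons, act_cons]
    ext
    · simp; ring
    · simp

lemma act_smul (l : List ℕ) (t : ℤ) (z : V) : act l (t • z) = t • act l z := by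
  induction l with
  | nil => rfl
  | cons c l ih =>
    rw [act_cons, ih, act_cons]
    ext
    · simp; ring
    · simp

lemma act_reverse (l : List ℕ) :
    act l.reverse (1, 0) = ((act l (1, 0)).1, -(act l (0, 1)).1) ∧
    act l.reverse (0, 1) = (-(act l (1, 0)).2, (act l (0, 1)).2) := by
  induction l with
  | nil => simp [act_nil]
  | cons c l ih =>
    obtain ⟨h1, h2⟩ := ih
    have e1 : act [c] (1, 0) = (c : ℤ) • ((1, 0) : V) + (0, 1) := by
      ext <;> simp [act_cons, act_nil]
    have e2 : act [c] (0, 1) = (-1 : ℤ) • ((1, 0) : V) := by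
      ext <;> simp [act_cons, act_nil]
    rw [List.reverse_cons, act_append, act_append, e1, e2, act_add, act_smul, act_smul, h1, h2,
      act_cons, act_cons]
    constructor
    · ext
      · simp; ring
      · simp; ring
    · ext
      · simp
      · simp

/-- Numerators of prefixes and suffixes of a zero continued fraction. -/
lemma ZA.num_take {k : List ℕ} (h : ZA k) {m : ℕ} (hm : m < k.length) :
    num (k.take m) = num (k.drop (m + 1)) := by
  obtain ⟨h1, h2⟩ := h.act_one
  have e : k.drop m = k[m] :: k.drop (m + 1) := List.drop_eq_getElem_cons hm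
  set z1 := act (k.drop m) (1, 0) with hz1
  set z2 := act (k.drop m) (0, 1) with hz2
  have hd : det z1 z2 = 1 := by
    rw [hz1, hz2, det_act]; simp [det]
  have hz1' : z1.2 = num (k.drop (m + 1)) := by
    rw [hz1, e, act_cons_snd]
  have h3 : ((1, 0) : V) = z2.2 • z1 + (-z1.2) • z2 := by
    simp only [det] at hd
    ext
    · simp; linarith
    · simp; ring
  have h4 : act (k.take m) z1 = act k (1, 0) := by
    rw [hz1, ← act_append, List.take_append_drop]
  have h5 : act (k.take m) z2 = act k (0, 1) := by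
    rw [hz2, ← act_append, List.take_append_drop]
  rw [num, h3, act_add, act_smul, act_smul, h4, h5, h1]
  simp only [Prod.fst_add, Prod.smul_fst, smul_eq_mul, h2, ← hz1']
  ring

lemma ZA.reverse {k : List ℕ} (h : ZA k) : ZA k.reverse := by
  refine ⟨by simpa using h.1, ?_, ?_⟩
  · rw [num, (act_reverse k).1]; exact h.2.1
  · apply allPos_of_drop
    intro m hm
    have hlen : 0 < k.length := List.length_pos_iff.2 h.1
    simp only [List.length_tail, List.length_reverse] at hm
    have e1 : k.reverse.tail.drop m = (k.take (k.length - (m + 1))).reverse := by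
      rw [List.drop_tail, List.drop_reverse]
    rw [e1, num, (act_reverse _).1]
    have h1 := h.num_take (m := k.length - (m + 1)) (by omega)
    have h2 : num (k.drop (k.length - (m + 1) + 1)) > 0 := by
      have e2 : k.drop (k.length - (m + 1) + 1) = k.tail.drop (k.length - (m + 1)) := by
        rw [List.drop_tail]
      rw [e2]
      exact (h.2.2.suffix (List.drop_suffix _ _)).num_pos
    rw [← h1] at h2
    exact h2

lemma act_coprime (b : List ℕ) : IsCoprime (num b) (act b (1, 0)).2 := by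
  have h := det_act b (1, 0) (0, 1)
  have h5 : det ((1, 0) : V) (0, 1) = 1 := by simp [det]
  rw [h5, det] at h
  exact ⟨(act b (0, 1)).2, -(act b (0, 1)).1, by rw [num]; linarith⟩

lemma allPos_large {b : List ℕ} (hb : ∀ c ∈ b, 2 ≤ c) : AllPos b := by
  induction b with
  | nil => trivial
  | cons c l ih =>
    refine ⟨?_, ih (fun d hd => hb d (List.mem_cons_of_mem _ hd))⟩
    have := num_large hb
    linarith

/-- The numerator and denominator of the continued fraction of `n / (n - a)`. -/
lemma num_of_hj {b : List ℕ} (hb : ∀ c ∈ b, 2 ≤ c) {n a : ℕ} (ha : 0 < a) (han : a < n)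
    (hc : Nat.Coprime a n) (h : hj b = (n : ℚ) / ((n : ℚ) - a)) :
    num b = n ∧ (act b (1, 0)).2 = (n : ℤ) - a := by
  have hp := allPos_large hb
  have h1 := hj_eq b hp.tail
  rw [h] at h1
  have hna : (0 : ℚ) < (n : ℚ) - a := by
    have : (a : ℚ) < n := by exact_mod_cast han
    linarith
  have hn : (0 : ℚ) < n := by
    have : (0 : ℚ) < a := by exact_mod_cast ha
    linarith
  have h2 : (0 : ℚ) < num b := by exact_mod_cast hp.num_pos
  have h3 : ((act b (1, 0)).2 : ℚ) ≠ 0 := by
    intro h3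
    rw [h3, div_zero] at h1
    have : (0 : ℚ) < (n : ℚ) / ((n : ℚ) - a) := by positivity
    linarith
  have h4 : (0 : ℤ) ≤ (act b (1, 0)).2 := (num_large hb).2
  have h5 : (0 : ℤ) < (act b (1, 0)).2 := by
    rcases h4.lt_or_eq with h6 | h6
    · exact h6
    · exfalso; apply h3; rw [← h6]; simp
  rw [div_eq_div_iff hna.ne' h3] at h1
  have h6 : (n : ℤ) * (act b (1, 0)).2 = num b * ((n : ℤ) - a) := by
    have : ((n : ℤ) : ℚ) * ((act b (1, 0)).2 : ℚ) = (num b : ℚ) * (((n : ℤ) : ℚ) - ((a : ℤ) : ℚ)) := by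
      push_cast; exact h1
    exact_mod_cast this
  have hco : IsCoprime (n : ℤ) ((n : ℤ) - a) := by
    have h7 : IsCoprime (a : ℤ) (n : ℤ) := Nat.isCoprime_iff_coprime.2 hc
    obtain ⟨r, s, hrs⟩ := h7
    exact ⟨r + s, -r, by linear_combination hrs⟩
  have hcb := act_coprime b
  have d1 : (n : ℤ) ∣ num b := by
    have : (n : ℤ) ∣ num b * ((n : ℤ) - a) := ⟨_, h6.symm⟩
    exact hco.dvd_of_dvd_mul_right this
  have d2 : num b ∣ (n : ℤ) := by
    have : num b ∣ (n : ℤ) * (act b (1, 0)).2 := ⟨_, h6⟩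
    exact hcb.dvd_of_dvd_mul_right this
  have hnb : num b = n := by
    apply Int.dvd_antisymm _ _ d2 d1
    · exact hp.num_pos.le
    · positivity
  refine ⟨hnb, ?_⟩
  rw [hnb] at h6
  have hn' : (n : ℤ) ≠ 0 := by
    intro h8
    have : (n : ℚ) = 0 := by exact_mod_cast h8
    linarith
  exact mul_left_cancel₀ hn' h6

/-- If `a² ≡ 1` modulo `n` then the continued fraction of `n / (n - a)` is a palindrome. -/
lemma palindrome {b : List ℕ} (hb : ∀ c ∈ b, 2 ≤ c) {n a : ℕ} (ha : 0 < a) (han : a < n)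
    (hc : Nat.Coprime a n) (h : hj b = (n : ℚ) / ((n : ℚ) - a)) (hsq : a ^ 2 ≡ 1 [MOD n]) :
    b.reverse = b := by
  obtain ⟨h1, h2⟩ := num_of_hj hb ha han hc h
  have hbr : ∀ c ∈ b.reverse, 2 ≤ c := fun c hc => hb c (List.mem_reverse.1 hc)
  obtain ⟨r1, r2⟩ := num_large hbr
  have e1 : num b.reverse = n := by rw [num, (act_reverse b).1]; exact h1
  have e2 : (act b.reverse (1, 0)).2 = -(act b (0, 1)).1 := by rw [(act_reverse b).1]
  set t := (act b.reverse (1, 0)).2 with ht
  rw [e1] at r1
  have hd := det_act b (1, 0) (0, 1)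
  have h5 : det ((1, 0) : V) (0, 1) = 1 := by simp [det]
  rw [h5, det] at hd
  have h1' : (act b (1, 0)).1 = n := h1
  rw [h1', h2] at hd
  have hp' : (act b (0, 1)).1 = -t := by linarith
  rw [hp'] at hd
  have hsq' : (n : ℤ) ∣ (a : ℤ) ^ 2 - 1 := by
    have := (Nat.modEq_iff_dvd.1 hsq.symm)
    push_cast at this
    exact this
  obtain ⟨s, hs⟩ := hsq'
  have hdiv : (n : ℤ) ∣ (n - a) - t := by
    refine ⟨1 - a * (act b (0, 1)).2 + t * s - a * t, ?_⟩
    linear_combination (a : ℤ) * hd + t * hs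
  have ha' : (0 : ℤ) < a := by exact_mod_cast ha
  have han' : (a : ℤ) < n := by exact_mod_cast han
  have h0 : ((n : ℤ) - a) - t = 0 := by
    apply Int.eq_zero_of_abs_lt_dvd hdiv
    rw [abs_lt]
    constructor
    · linarith
    · linarith
  have htt : t = (n : ℤ) - a := by linarith
  apply hj_inj hbr hb
  rw [hj_eq _ (allPos_large hbr).tail, hj_eq _ (allPos_large hb).tail, e1, h1, h2, ← ht, htt]

end Pool.Agent.Lib.MP_7470a2_gt
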