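import Pool.Agent.Lib.MP_7470a2_gt.Zero

/-!
# Fillings as pairs of vectors of the chain
-/

namespace Pool.Agent.Lib.MP_7470a2_gt

/-- indicator -/
def ind (i l : ℕ) : ℤ := if l = i then 1 else 0

lemma fn_eq_of_forall₂_zero {k b : List ℕ} (h : List.Forall₂ (· ≤ ·) k b)
    (hs : b.sum = k.sum) : k = b := by
  induction h with
  | nil => rfl
  | @cons c d k b hcd h ih =>
    have hle : k.sum ≤ b.sum := List.Forall₂.sum_le_sum h
    simp only [List.sum_cons] at hs
    have h1 : c = d := by omega
    rw [h1, ih (by omega)]

lemma exists_index {k b : List ℕ} (h : List.Forall₂ (· ≤ ·) k b)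
    (hs : b.sum = k.sum + 1) : ∃ i, i < b.length ∧ ∀ l, fn b l = fn k l + ind i l := by
  induction h with
  | nil => simp at hs
  | @cons c d k b hcd h ih =>
    have hle : k.sum ≤ b.sum := List.Forall₂.sum_le_sum h
    simp only [List.sum_cons] at hs
    rcases Nat.lt_or_ge c d with h1 | h1
    · have h2 : k = b := fn_eq_of_forall₂_zero h (by omega)
      subst h2
      refine ⟨0, by simp, ?_⟩
      intro l
      cases l with
      | zero =>
        rw [fn_cons_zero, fn_cons_zero]
        have : d = c + 1 := by omega
        rw [this]; simp [ind]
      | succ l => simp [fn_cons_succ, ind]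
    · obtain ⟨i, hi, hi2⟩ := ih (by omega)
      refine ⟨i + 1, by simpa using hi, ?_⟩
      intro l
      cases l with
      | zero =>
        rw [fn_cons_zero, fn_cons_zero]
        have : d = c := by omega
        rw [this]; simp [ind]
      | succ l =>
        rw [fn_cons_succ, fn_cons_succ, hi2 l]
        simp [ind]

lemma exists_indices {k b : List ℕ} (h : List.Forall₂ (· ≤ ·) k b)
    (hs : b.sum = k.sum + 2) :
    ∃ i j, i ≤ j ∧ j < b.length ∧ ∀ l, fn b l = fn k l + ind i l + ind j l := by
  induction h with
  | nil => simp at hs
  | @cons c d k b hcd h ih =>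
    have hle : k.sum ≤ b.sum := List.Forall₂.sum_le_sum h
    simp only [List.sum_cons] at hs
    obtain h1 | h1 | h1 : d = c + 2 ∨ d = c + 1 ∨ d = c := by omega
    · have h2 : k = b := fn_eq_of_forall₂_zero h (by omega)
      subst h2
      refine ⟨0, 0, le_rfl, by simp, ?_⟩
      intro l
      cases l with
      | zero =>
        rw [fn_cons_zero, fn_cons_zero, h1]
        simp [ind]; ring
      | succ l => simp [fn_cons_succ, ind]
    · obtain ⟨i, hi, hi2⟩ := exists_index h (by omega)
      refine ⟨0, i + 1, by omega, by simpa using hi, ?_⟩
      intro l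
      cases l with
      | zero =>
        rw [fn_cons_zero, fn_cons_zero, h1]
        simp [ind]
      | succ l =>
        rw [fn_cons_succ, fn_cons_succ, hi2 l]
        simp [ind]
    · obtain ⟨i, j, hij, hj, hi2⟩ := ih (by omega)
      refine ⟨i + 1, j + 1, by omega, by simpa using hj, ?_⟩
      intro l
      cases l with
      | zero =>
        rw [fn_cons_zero, fn_cons_zero, h1]
        simp [ind]
      | succ l =>
        rw [fn_cons_succ, fn_cons_succ, hi2 l]
        simp [ind]

/-- lower the entry with index `i` by one -/
def low (b : List ℕ) (i : ℕ) : List ℕ := b.set i (b.getD i 0 - 1)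

lemma low_length (b : List ℕ) (i : ℕ) : (low b i).length = b.length := by simp [low]

lemma low_cons_zero (c : ℕ) (b : List ℕ) : low (c :: b) 0 = (c - 1) :: b := rfl

lemma low_cons_succ (c : ℕ) (b : List ℕ) (i : ℕ) : low (c :: b) (i + 1) = c :: low b i := rfl

lemma low_forall₂ (b : List ℕ) (i : ℕ) : List.Forall₂ (· ≤ ·) (low b i) b := by
  induction b generalizing i with
  | nil => simp [low]
  | cons c b ih =>
    cases i with
    | zero =>
      rw [low_cons_zero]
      exact List.Forall₂.cons (by omega) (List.forall₂_refl _)
    | succ i =>
      rw [low_cons_succ]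
      exact List.Forall₂.cons le_rfl (ih i)

lemma low_sum (b : List ℕ) (i : ℕ) (hi : 1 ≤ b.getD i 0) : (low b i).sum + 1 = b.sum := by
  induction b generalizing i with
  | nil => simp at hi
  | cons c b ih =>
    cases i with
    | zero =>
      rw [low_cons_zero]
      simp only [List.sum_cons]
      have : 1 ≤ c := by simpa using hi
      omega
    | succ i =>
      rw [low_cons_succ]
      have := ih i (by simpa using hi)
      simp only [List.sum_cons]
      omega

lemma low_fn (b : List ℕ) (i : ℕ) (hi : 1 ≤ b.getD i 0) (l : ℕ) :
    fn b l = fn (low b i) l + ind i l := by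
  induction b generalizing i l with
  | nil => simp at hi
  | cons c b ih =>
    cases i with
    | zero =>
      rw [low_cons_zero]
      have : 1 ≤ c := by simpa using hi
      cases l with
      | zero =>
        rw [fn_cons_zero, fn_cons_zero]
        simp only [ind, if_true]
        omega
      | succ l => simp [fn_cons_succ, ind]
    | succ i =>
      rw [low_cons_succ]
      cases l with
      | zero => simp [fn_cons_zero, ind]
      | succ l =>
        rw [fn_cons_succ, fn_cons_succ, ih i (by simpa using hi) l]
        simp [ind]

/-- A list is determined by its length and its entries. -/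
lemma eq_of_fn {k k' : List ℕ} (hl : k.length = k'.length) (h : ∀ l, fn k l = fn k' l) :
    k = k' := by
  induction k generalizing k' with
  | nil =>
    cases k' with
    | nil => rfl
    | cons c k' => simp at hl
  | cons c k ih =>
    cases k' with
    | nil => simp at hl
    | cons c' k' =>
      have h0 := h 0
      rw [fn_cons_zero, fn_cons_zero] at h0
      have h1 : k = k' := by
        apply ih (by simpa using hl)
        intro l
        have := h (l + 1)
        rwa [fn_cons_succ, fn_cons_succ] at this
      rw [h1]
      congr 1
      exact_mod_cast h0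

/-- The chain of `k = b - e_i - e_j` in terms of the one of `b`. -/
lemma ch_two (x y : V) (h : det x y = 1) (k b : List ℕ) {i j : ℕ} (hij : i ≤ j)
    (hk : ∀ l, fn b l = fn k l + ind i l + ind j l) (l : ℕ) :
    (l ≤ i + 1 → ch x y (fn k) l = ch x y (fn b) l) ∧
    (i + 1 ≤ l → l ≤ j + 1 → ch x y (fn k) l = sg (ch x y (fn b) (i + 1)) (ch x y (fn b) l)) ∧
    (j + 1 ≤ l → ch x y (fn k) l =
      sg (ch x y (fn b) (i + 1)) (sg (ch x y (fn b) (j + 1)) (ch x y (fn b) l))) := by
  have h1 := ch_lower x y h (fn b) (fun l => fn b l - ind i l) i (by simp [ind])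
    (fun l hl => by simp [ind, hl])
  have h2 := ch_lower x y h (fun l => fn b l - ind i l) (fn k) j
    (by simp only [hk j, ind, if_true]; ring) (fun l hl => by rw [hk l]; simp [ind, hl])
  refine ⟨?_, ?_, ?_⟩
  · intro hl
    rw [(h2 l).1 (by omega), (h1 l).1 hl]
  · intro hl hl2
    rw [(h2 l).1 hl2, (h1 l).2 hl]
  · intro hl
    rw [(h2 l).2 hl, (h1 l).2 (by omega), (h1 (j + 1)).2 (by omega), sg_sg]

lemma allPos_of_drop (l : List ℕ) (h : ∀ m, m ≤ l.length → 0 < num (l.drop m)) : AllPos l := by
  induction l with
  | nil => trivial
  | cons c l ih =>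
    refine ⟨by simpa using h 0 (by simp), ih ?_⟩
    intro m hm
    have := h (m + 1) (by simpa using hm)
    simpa using this

lemma fn_ge {b : List ℕ} (hb : ∀ c ∈ b, 2 ≤ c) {l : ℕ} (hl : l < b.length) : 2 ≤ fn b l := by
  have h1 : b.getD l 0 = b[l] := by simp [List.getD, hl]
  rw [fn, h1]
  exact_mod_cast hb _ (List.getElem_mem hl)

/-- The identity between vectors which characterises the fillings. -/
def Id2 (A B u v : V) : Prop := A + B = det A u • u + det v B • v

lemma id2_iff (A B u v : V) : Id2 A B u v ↔ sg u (sg v B) = -A := by
  constructor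
  · intro h
    unfold Id2 at h
    have e1 := congrArg Prod.fst h
    have e2 := congrArg Prod.snd h
    simp only [Prod.fst_add, Prod.snd_add, Prod.smul_fst, Prod.smul_snd, smul_eq_mul] at e1 e2
    have h1 : sg v B = det A u • u - A := by
      ext
      · simp only [sg, Prod.fst_sub, Prod.smul_fst, smul_eq_mul]; linarith
      · simp only [sg, Prod.snd_sub, Prod.smul_snd, smul_eq_mul]; linarith
    rw [h1, sg_smul_sub, sg_self]
    ext <;> simp [sg, det] <;> ring
  · intro h
    have hA : A = -(sg u (sg v B)) := by rw [h]; simp
    unfold Id2
    rw [hA]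
    ext <;> simp [sg, det] <;> ring

/-- **Characterisation of the solutions.** -/
theorem za_iff_id2 (x y : V) (h : det x y = 1) (k b : List ℕ) (hb : ∀ c ∈ b, 2 ≤ c)
    (hlen : k.length = b.length) {i j : ℕ} (hij : i ≤ j) (hj : j < b.length)
    (hk : ∀ l, fn b l = fn k l + ind i l + ind j l) :
    ZA k ↔ Id2 x (ch x y (fn b) (b.length + 1)) (ch x y (fn b) (i + 1))
      (ch x y (fn b) (j + 1)) := by
  have hB := (ch_two x y h k b hij hk (b.length + 1)).2.2 (by omega)
  have hL := (ch_length k x y).1
  rw [hlen, hB] at hL
  rw [id2_iff]
  constructor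
  · intro hz
    rw [hL, hz.act_one.1]
    ext <;> simp
  · intro hid
    have hne : k ≠ [] := by
      rintro rfl
      simp at hlen
      rw [← hlen] at hj
      simp at hj
    have hend : ch x y (fn k) (k.length + 1) = -x := by
      rw [hlen, hB, hid]
    have hc : ∀ l < b.length, 2 ≤ fn b l := fun l hl => fn_ge hb hl
    refine ⟨hne, ?_, ?_⟩
    · have h1 := num_drop x y h k 0 (by omega)
      rw [hend, List.drop_zero] at h1
      rw [h1, ch_zero, det_neg_right, det_self]; rfl
    · apply allPos_of_drop
      intro m hm
      have e1 : k.tail.drop m = k.drop (m + 1) := by simp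
      rw [e1, num_drop x y h k (m + 1) (by simp at hm; have := List.length_pos_iff.2 hne; omega)]
      have hm' : m + 1 ≤ b.length := by
        simp at hm; have := List.length_pos_iff.2 hne; omega
      rw [hend]
      rcases Nat.lt_or_ge i m with h2 | h2
      · rcases Nat.lt_or_ge m j with h3 | h3
        · -- in between
          rw [(ch_two x y h k b hij hk (m + 1)).2.1 (by omega) (by omega), ← hid, det_sg]
          set u := ch x y (fn b) (i + 1) with hu
          set v := ch x y (fn b) (j + 1) with hv
          set z := ch x y (fn b) (m + 1) with hz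
          set B := ch x y (fn b) (b.length + 1) with hB'
          have p1 : 0 < det u v := det_ch_pos x y _ h hc (by omega) (by omega)
          have p2 : 0 < det z v := det_ch_pos x y _ h hc (by omega) (by omega)
          have p3 : 0 < det u z := det_ch_pos x y _ h hc (by omega) (by omega)
          have p4 : 0 < det v B := det_ch_pos x y _ h hc (by omega) (by omega)
          have p5 : 0 < det x u := by
            have := det_ch_pos x y (fn b) h hc (l := 0) (m := i + 1) (by omega) (by omega)
            simpa using this
          have p6 : det u (sg v B) = det x u := by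
            have : det u (-x) = det u (sg v B) := by
              rw [← hid, ← det_sg u u (sg v B), sg_self]
            rw [← this, det_neg_right, det_swap]; ring
          have p7 : det v (sg v B) = det v B := by
            rw [← det_sg v v B, sg_self]
          have p8 : det u v * det z (sg v B) =
              det z v * det u (sg v B) + det u z * det v (sg v B) := by
            have := plucker u v z (sg v B)
            have e := det_swap z v
            linear_combination this - det u (sg v B) * e
          rw [p6, p7] at p8
          have p9 : 0 < det u v * det z (sg v B) := by rw [p8]; positivity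
          exact (mul_pos_iff_of_pos_left p1).1 p9
        · rw [(ch_two x y h k b hij hk (m + 1)).2.2 (by omega), ← hid, det_sg, det_sg]
          exact det_ch_pos x y _ h hc (by omega) (by omega)
      · rw [(ch_two x y h k b hij hk (m + 1)).1 (by omega), det_neg_right, det_swap, neg_neg]
        have := det_ch_pos x y (fn b) h hc (l := 0) (m := m + 1) (by omega) (by omega)
        simpa using this

end Pool.Agent.Lib.MP_7470a2_gt
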