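import Pool.Agent.Lib.MP_7470a2_gt.Basic

/-!
# Admissible zero continued fractions
-/

namespace Pool.Agent.Lib.MP_7470a2_gt

/-- All suffixes have a positive numerator. -/
def AllPos : List ℕ → Prop
  | [] => True
  | (c :: l) => 0 < num (c :: l) ∧ AllPos l

lemma AllPos.num_pos {l : List ℕ} (h : AllPos l) : 0 < num l := by
  cases l with
  | nil => simp [num_nil]
  | cons c l => exact h.1

lemma AllPos.tail {l : List ℕ} (h : AllPos l) : AllPos l.tail := by
  cases l with
  | nil => exact h
  | cons c l => exact h.2

lemma AllPos.suffix {l m : List ℕ} (h : AllPos l) (hm : m <:+ l) : AllPos m := by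
  induction l with
  | nil =>
    rw [List.suffix_nil] at hm
    subst hm; trivial
  | cons c l ih =>
    rcases List.suffix_cons_iff.1 hm with h1 | h1
    · subst h1; exact h
    · exact ih h.2 h1

/-- Zero continued fractions which are admissible. -/
def ZA (k : List ℕ) : Prop := k ≠ [] ∧ num k = 0 ∧ AllPos k.tail

lemma hj_eq (k : List ℕ) (h : AllPos k.tail) : hj k = (num k : ℚ) / (act k (1, 0)).2 := by
  induction k with
  | nil => simp [hj, act_nil]
  | cons c l ih =>
    have h' : AllPos l := h
    have h1 : (num l : ℚ) ≠ 0 := by
      have := h'.num_pos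
      exact_mod_cast this.ne'
    rw [hj, ih h'.tail, act_cons_snd, num_cons]
    push_cast
    rw [inv_div]
    field_simp

lemma allPos_of_admissible (k : List ℕ) (h : Admissible k) : AllPos k.tail := by
  have : ∀ l, l <:+ k.tail → AllPos l := by
    intro l
    induction l with
    | nil => intro _; trivial
    | cons c l ih =>
      intro hl
      have h1 : l <:+ k.tail := (List.suffix_cons c l).trans hl
      have h2 := ih h1
      refine ⟨?_, h2⟩
      have h3 := h (c :: l) (by simp) hl
      rw [hj_eq (c :: l) h2, act_cons_snd] at h3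
      have h4 : (0 : ℚ) < num l := by exact_mod_cast h2.num_pos
      have h5 : (0 : ℚ) < num (c :: l) := by
        by_contra hcon
        push Not at hcon
        exact absurd h3 (not_lt.2 (div_nonpos_of_nonpos_of_nonneg hcon h4.le))
      exact_mod_cast h5
  exact this _ List.suffix_rfl

lemma za_iff (k : List ℕ) : ZA k ↔ (k ≠ [] ∧ Admissible k ∧ hj k = 0) := by
  constructor
  · rintro ⟨h0, h1, h2⟩
    refine ⟨h0, ?_, ?_⟩
    · intro l hl hs
      have h3 := h2.suffix hs
      rw [hj_eq l h3.tail]
      have h4 := h3.num_pos
      obtain ⟨c, m, rfl⟩ := List.exists_cons_of_ne_nil hl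
      rw [act_cons_snd]
      have h5 : AllPos m := h3.tail
      have h6 := h5.num_pos
      have h4' : (0 : ℚ) < num (c :: m) := by exact_mod_cast h4
      have h6' : (0 : ℚ) < num m := by exact_mod_cast h6
      positivity
    · rw [hj_eq k h2, h1]; simp
  · rintro ⟨h0, h1, h2⟩
    have h3 := allPos_of_admissible k h1
    refine ⟨h0, ?_, h3⟩
    rw [hj_eq k h3] at h2
    obtain ⟨c, m, rfl⟩ := List.exists_cons_of_ne_nil h0
    rw [act_cons_snd] at h2
    have h6 : AllPos m := h3
    have h6' : (num m : ℚ) ≠ 0 := by
      have := h6.num_pos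
      exact_mod_cast this.ne'
    rw [div_eq_zero_iff] at h2
    rcases h2 with h2 | h2
    · exact_mod_cast h2
    · exact absurd h2 h6'

/-! ### Linearity -/

lemma act_append (l m : List ℕ) (z : V) : act (l ++ m) z = act l (act m z) := by
  induction l with
  | nil => rfl
  | cons c l ih => rw [List.cons_append, act_cons, ih, act_cons]

lemma act_sub (l : List ℕ) (z z' : V) : act l (z - z') = act l z - act l z' := by
  induction l with
  | nil => rfl
  | cons c l ih =>
    rw [act_cons, ih, act_cons, act_cons]
    ext <;> simp <;> ring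

lemma det_act (l : List ℕ) (z z' : V) : det (act l z) (act l z') = det z z' := by
  induction l with
  | nil => rfl
  | cons c l ih =>
    rw [act_cons, act_cons, ← ih]
    simp [det]; ring

lemma ZA.act_one {k : List ℕ} (h : ZA k) :
    act k (1, 0) = (0, 1) ∧ (act k (0, 1)).1 = -1 := by
  obtain ⟨h0, h1, h2⟩ := h
  obtain ⟨c, m, rfl⟩ := List.exists_cons_of_ne_nil h0
  have h3 : 0 < num m := AllPos.num_pos h2
  have h4 := det_act (c :: m) (1, 0) (0, 1)
  have h5 : det ((1, 0) : V) (0, 1) = 1 := by simp [det]
  rw [h5, det, act_cons_snd] at h4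
  have h6 : (act (c :: m) (1, 0)).1 = 0 := h1
  rw [h6] at h4
  have h7 : num m * (act (c :: m) (0, 1)).1 = -1 := by linarith
  have h8 : num m ∣ 1 := by
    rw [← dvd_neg]; exact ⟨_, h7.symm⟩
  have h9 : num m = 1 := Int.eq_one_of_dvd_one h3.le h8
  rw [h9] at h7
  constructor
  · ext
    · exact h6
    · rw [act_cons_snd, h9]
  · linarith

/-! ### Blowing down -/

lemma allPos_append {l m m' : List ℕ} (h : ∀ z, act m z = act m' z)
    (hm : AllPos m → AllPos m') (hl : AllPos (l ++ m)) : AllPos (l ++ m') := by
  induction l with
  | nil => exact hm hl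
  | cons c l ih =>
    rw [List.cons_append] at hl ⊢
    refine ⟨?_, ih hl.2⟩
    have := hl.1
    rw [num, ← List.cons_append, act_append] at this ⊢
    rwa [← h]

lemma allPos_append' {l m m' : List ℕ} (h : act m (1, 0) = act m' (1, 0))
    (hm : AllPos m → AllPos m') (hl : AllPos (l ++ m)) : AllPos (l ++ m') := by
  induction l with
  | nil => exact hm hl
  | cons c l ih =>
    rw [List.cons_append] at hl ⊢
    refine ⟨?_, ih hl.2⟩
    have := hl.1
    rw [num, ← List.cons_append, act_append] at this ⊢
    rwa [← h]

lemma act_blowup (a b : ℕ) (l : List ℕ) (z : V) :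
    act ((a + 1) :: 1 :: (b + 1) :: l) z = act (a :: b :: l) z := by
  simp only [act_cons]
  ext <;> push_cast <;> ring

lemma allPos_blowdown (a b : ℕ) (l : List ℕ)
    (h : AllPos ((a + 1) :: 1 :: (b + 1) :: l)) : AllPos (a :: b :: l) := by
  obtain ⟨h1, h2, h3, h4⟩ := h
  refine ⟨?_, ?_, h4⟩
  · rw [num, act_blowup] at h1; exact h1
  · have : num (b :: l) = num (1 :: (b + 1) :: l) := by
      simp only [num, act_cons]; push_cast; ring
    rw [this]; exact h2

lemma AllPos.entries {l : List ℕ} (h : AllPos l) : ∀ c ∈ l, 1 ≤ c := by
  induction l with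
  | nil => intro c hc; simp at hc
  | cons d l ih =>
    intro c hc
    rcases List.mem_cons.1 hc with h1 | h1
    · subst h1
      by_contra hcon
      have h0 : c = 0 := by omega
      subst h0
      have h2 := h.1
      rw [num_cons] at h2
      cases l with
      | nil => simp [act_nil] at h2
      | cons e m =>
        rw [act_cons_snd] at h2
        have h3 : 0 < num m := AllPos.num_pos h.2.2
        push_cast at h2
        linarith
    · exact ih h.2 c h1

lemma ZA.entries {k : List ℕ} (h : ZA k) (hl : 2 ≤ k.length) : ∀ c ∈ k, 1 ≤ c := by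
  obtain ⟨h0, h1, h2⟩ := h
  obtain ⟨c, m, rfl⟩ := List.exists_cons_of_ne_nil h0
  intro d hd
  rcases List.mem_cons.1 hd with h3 | h3
  · subst h3
    by_contra hcon
    have h0 : d = 0 := by omega
    subst h0
    rw [num_cons] at h1
    cases m with
    | nil => simp at hl
    | cons e m' =>
      rw [act_cons_snd] at h1
      have h3 : 0 < num m' := AllPos.num_pos (AllPos.tail h2)
      push_cast at h1
      linarith
  · exact AllPos.entries h2 d h3

lemma num_large {k : List ℕ} (h : ∀ c ∈ k, 2 ≤ c) :
    (act k (1, 0)).2 + 1 ≤ num k ∧ 0 ≤ (act k (1, 0)).2 := by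
  induction k with
  | nil => simp [num_nil, act_nil]
  | cons c l ih =>
    obtain ⟨h1, h2⟩ := ih (fun d hd => h d (List.mem_cons_of_mem _ hd))
    have h3 : (2 : ℤ) ≤ c := by exact_mod_cast h c (by simp)
    rw [num_cons, act_cons_snd]
    constructor
    · nlinarith
    · linarith

lemma ZA.exists_one {k : List ℕ} (h : ZA k) (hl : 2 ≤ k.length) : 1 ∈ k := by
  by_contra hcon
  have h1 : ∀ c ∈ k, 2 ≤ c := by
    intro c hc
    have h2 := h.entries hl c hc
    have h3 : c ≠ 1 := fun h4 => hcon (h4 ▸ hc)
    omega
  have h2 := num_large h1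
  have h3 := h.2.1
  linarith

/-- The formula for the sum of the entries of an admissible zero continued fraction. -/
theorem ZA.sum_formula {k : List ℕ} (h : ZA k) :
    (k.sum : ℤ) - (act k (0, 1)).2 = 3 * ((k.length : ℤ) - 1) := by
  induction hn : k.length using Nat.strong_induction_on generalizing k with
  | _ n ih =>
  rcases Nat.lt_or_ge k.length 2 with hlt | hge
  · obtain ⟨c, m, rfl⟩ := List.exists_cons_of_ne_nil h.1
    have hm : m = [] := by
      rw [List.length_cons] at hlt
      exact List.eq_nil_of_length_eq_zero (by omega)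
    subst hm
    have h1 := h.2.1
    rw [num_cons] at h1
    simp [act_nil, num_nil] at h1
    subst h1
    simp at hn
    subst hn
    simp [act_cons, act_nil]
  · have hent := h.entries hge
    obtain ⟨l₁, l₂, hk⟩ := List.append_of_mem (h.exists_one hge)
    rcases List.eq_nil_or_concat l₁ with hl₁ | ⟨l₁', a, hl₁⟩
    · subst hl₁
      rw [List.nil_append] at hk
      subst hk
      obtain ⟨b, l, rfl⟩ : ∃ b l, l₂ = b :: l := by
        apply List.exists_cons_of_ne_nil
        rintro rfl
        simp at hge
      obtain ⟨b', rfl⟩ : ∃ b', b = b' + 1 := ⟨b - 1, by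
        have := hent b (by simp); omega⟩
      have hz : ZA (b' :: l) := by
        refine ⟨by simp, ?_, h.2.2.2⟩
        rw [← h.2.1]
        simp only [num, act_cons]; push_cast; ring
      have h2 := ih (b' :: l).length (by subst hn; simp) hz rfl
      have h3 := hz.act_one.2
      have h4 : (act (1 :: (b' + 1) :: l) (0, 1)).2 =
          (act (b' :: l) (0, 1)).2 + (act (b' :: l) (0, 1)).1 := by
        simp only [act_cons]; push_cast; ring
      rw [h4, h3]
      subst hn
      simp only [List.sum_cons, List.length_cons] at h2 ⊢
      push_cast at h2 ⊢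
      linarith
    · subst hl₁
      obtain ⟨a', rfl⟩ : ∃ a', a = a' + 1 := ⟨a - 1, by
        have := hent a (by rw [hk]; simp); omega⟩
      rcases l₂ with _ | ⟨b, l⟩
      · have hk' : k = l₁' ++ [a' + 1, 1] := by rw [hk]; simp
        have hact : act [a' + 1, 1] (1, 0) = act [a'] (1, 0) := by
          simp only [act_cons, act_nil]; ext <;> push_cast <;> ring
        have hact2 : act [a' + 1, 1] (0, 1) = act [a'] (0, 1) - act [a'] (1, 0) := by
          simp only [act_cons, act_nil]; ext <;> simp <;> ring
        have hz : ZA (l₁' ++ [a']) := by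
          refine ⟨by simp, ?_, ?_⟩
          · rw [num, act_append, ← hact, ← act_append, ← hk']; exact h.2.1
          · have h5 := h.2.2
            rw [hk'] at h5
            cases l₁' with
            | nil => trivial
            | cons c l' =>
              simp only [List.cons_append, List.tail_cons] at h5 ⊢
              refine allPos_append' hact ?_ h5
              intro h6
              refine ⟨?_, trivial⟩
              rw [num, ← hact]; exact h6.1
        have h2 := ih (l₁' ++ [a']).length (by subst hn; rw [hk']; simp) hz rfl
        have h3 : act k (0, 1) = act (l₁' ++ [a']) (0, 1) - act (l₁' ++ [a']) (1, 0) := by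
          rw [hk', act_append, hact2, act_sub, ← act_append, ← act_append]
        rw [h3, hz.act_one.1]
        subst hn
        rw [hk']
        simp only [List.sum_append, List.sum_cons, List.sum_nil, List.length_append,
          List.length_cons, List.length_nil] at h2 ⊢
        push_cast at h2 ⊢
        simp only [Prod.snd_sub]
        linarith
      · obtain ⟨b', rfl⟩ : ∃ b', b = b' + 1 := ⟨b - 1, by
          have := hent b (by rw [hk]; simp); omega⟩
        have hk' : k = l₁' ++ (a' + 1) :: 1 :: (b' + 1) :: l := by rw [hk]; simp
        have hz : ZA (l₁' ++ a' :: b' :: l) := by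
          refine ⟨by simp, ?_, ?_⟩
          · rw [num, act_append, ← act_blowup, ← act_append, ← hk']; exact h.2.1
          · have h5 := h.2.2
            rw [hk'] at h5
            cases l₁' with
            | nil =>
              simp only [List.nil_append, List.tail_cons] at h5 ⊢
              obtain ⟨h6, h7, h8⟩ := h5
              refine ⟨?_, h8⟩
              have : num (b' :: l) = num (1 :: (b' + 1) :: l) := by
                simp only [num, act_cons]; push_cast; ring
              rw [this]; exact h6
            | cons c l' =>
              simp only [List.cons_append, List.tail_cons] at h5 ⊢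
              exact allPos_append (act_blowup a' b' l) (allPos_blowdown a' b' l) h5
        have h2 := ih (l₁' ++ a' :: b' :: l).length (by subst hn; rw [hk']; simp) hz rfl
        have h3 : act k (0, 1) = act (l₁' ++ a' :: b' :: l) (0, 1) := by
          rw [hk', act_append, act_blowup, ← act_append]
        rw [h3]
        subst hn
        rw [hk']
        simp only [List.sum_append, List.sum_cons, List.length_append,
          List.length_cons] at h2 ⊢
        push_cast at h2 ⊢
        linarith

/-- Two admissible zero continued fractions with the same length and sum have the same matrix. -/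
lemma ZA.act_eq {k k' : List ℕ} (h : ZA k) (h' : ZA k') (hl : k.length = k'.length)
    (hs : k.sum = k'.sum) : act k (1, 0) = act k' (1, 0) ∧ act k (0, 1) = act k' (0, 1) := by
  obtain ⟨h1, h2⟩ := h.act_one
  obtain ⟨h3, h4⟩ := h'.act_one
  refine ⟨by rw [h1, h3], ?_⟩
  have h5 := h.sum_formula
  have h6 := h'.sum_formula
  rw [hl, hs] at h5
  ext
  · rw [h2, h4]
  · linarith

end Pool.Agent.Lib.MP_7470a2_gt
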